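import Pool.Agent.Lib.BC.LBlue
import Pool.Agent.Lib.BCH.Bd60
import Pool.Agent.Lib.BCH.Roe46

/-! The algebraic ending: naturality of the index class. -/

set_option linter.unusedSectionVars false

noncomputable section

open Filter Topology Function Matrix
open scoped NNReal BoundedContinuousFunction ZeroAtInfty

namespace Pool.Agent.Lib.BCL

open Pool.Agent.Lib.BCH Pool.Agent.Lib.BCH.Bd

section Alg

variable {J A J' A' Q : Type}
  [NonUnitalRing J] [Module ℝ J] [IsScalarTower ℝ J J] [SMulCommClass ℝ J J]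
  [NonUnitalRing A] [Module ℝ A] [IsScalarTower ℝ A A] [SMulCommClass ℝ A A]
  [NonUnitalRing J'] [Module ℝ J'] [IsScalarTower ℝ J' J'] [SMulCommClass ℝ J' J']
  [NonUnitalRing A'] [Module ℝ A'] [IsScalarTower ℝ A' A'] [SMulCommClass ℝ A' A']
  [NonUnitalRing Q] [Module ℝ Q] [IsScalarTower ℝ Q Q] [SMulCommClass ℝ Q Q]

theorem nat_indexOf (E : Ext J A Q) (E' : Ext J' A' Q) (φ : J' →ₙₐ[ℝ] J) (ψ : A' →ₙₐ[ℝ] A)
    (h1 : ∀ x, E.ι (φ x) = ψ (E'.ι x)) (h2 : ∀ x, E.π (ψ x) = E'.π x) {k : ℕ} (a : GLq Q k) :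
    K0.map (unitMap φ : Unitization ℝ J' →ₙ+* Unitization ℝ J) (E'.indexOf a) = E.indexOf a := by
  obtain ⟨α, β, hl, he⟩ := exists_lft E' a
  have hu := (U_qinv a).1
  have hπ : ∀ x, unitMap E.π (unitMap ψ x) = unitMap E'.π x := fun x =>
    Unitization.ext (by simp only [unitMap_fst]) (by simp only [unitMap_snd, h2])
  have hι : ∀ x, unitMap E.ι (unitMap φ x) = unitMap ψ (unitMap E'.ι x) := fun x =>
    Unitization.ext (by simp only [unitMap_fst]) (by simp only [unitMap_snd, h1])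
  have hl' : Lift E (U a.1) (U (qinv a)) (α.map (unitMap ψ)) (β.map (unitMap ψ)) := by
    obtain ⟨e, s, t, hs, ht⟩ := hl
    refine ⟨?_, s, t, ?_, ?_⟩
    · rw [← Matrix.map_mul, e, Matrix.map_one _ (map_zero _) (map_one _)]
    · rw [← hs]; exact Matrix.ext fun i j => hπ _
    · rw [← ht]; exact Matrix.ext fun i j => hπ _
  rw [he, indexOf_eq a hl' hu, map_sub, map_cls _ (hl.idem hu), map_cls _ (one_mul 1)]
  congr 2
  · refine Matrix.map_injective (unitMap_injective E.inj) ?_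
    dsimp only
    rw [hl'.map_pull hl' hu, ← Matrix.map_mul, ← hl.map_pull hl hu, pull_map]
    exact Matrix.ext fun i j => hι _
  · exact Matrix.map_one _ (map_zero _) (map_one (unitMap φ))

/-- The map induced by `ι` on `K0` vanishes. -/
def Dies (ι : J →ₙₐ[ℝ] A) : Prop :=
  ∀ x ∈ K0r J, K0.map (unitMap ι : Unitization ℝ J →ₙ+* Unitization ℝ A) x = 0

theorem surj_of_lift (ι : J →ₙₐ[ℝ] A) (ι' : J' →ₙₐ[ℝ] A') (φ : J' →ₙₐ[ℝ] J) (ψ : A' →ₙₐ[ℝ] A)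
    (hi : Injective ι) (hi' : Injective ι')
    (hm : ∀ a x, (∃ y, ι y = a * ι x) ∧ ∃ y, ι y = ι x * a) (h1 : ∀ x, ι (φ x) = ψ (ι' x))
    (hs : Surjective ψ) (hp : ∀ a x, ι x = ψ a → ∃ y, ι' y = a)
    (h : Dies ι) : Surjective (K0rMap φ) := fun x => by
  let I : Ideal (Unitization ℝ A) :=
    { carrier := {u | ∃ y, (ι y : Unitization ℝ A) = u}
      add_mem' := by
        rintro _ _ ⟨y, rfl⟩ ⟨z, rfl⟩
        exact ⟨y + z, by simp⟩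
      zero_mem' := ⟨0, by simp⟩
      smul_mem' := by
        rintro u _ ⟨y, rfl⟩
        obtain ⟨z, hz⟩ := (hm u.snd y).1
        exact ⟨u.fst • y + z, by ext <;> simp [hz]⟩ }
  have : I.IsTwoSided := ⟨by
    rintro _ u ⟨y, rfl⟩
    obtain ⟨z, hz⟩ := (hm u.snd y).2
    exact ⟨u.fst • y + z, by ext <;> simp [hz]⟩⟩
  let π₀ : A →ₙₐ[ℝ] Unitization ℝ A ⧸ I :=
    (Ideal.Quotient.mkₐ ℝ I : Unitization ℝ A →ₙₐ[ℝ] _).comp (Unitization.inrNonUnitalAlgHom ℝ A)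
  let π : A →ₙₐ[ℝ] NonUnitalAlgHom.range π₀ :=
    NonUnitalAlgHom.codRestrict π₀ _ fun a => ⟨a, rfl⟩
  have hπ : Exact ι π := fun a => Subtype.ext_iff.trans (Ideal.Quotient.eq_zero_iff_mem.trans
    ⟨fun ⟨y, hy⟩ => ⟨y, Unitization.inr_injective hy⟩, fun ⟨y, hy⟩ => ⟨y, congrArg _ hy⟩⟩)
  have hq : Surjective π := fun ⟨_, a, ha⟩ => ⟨a, Subtype.ext ha⟩
  let E : Ext J A (NonUnitalAlgHom.range π₀) := ⟨ι, π, hi, hπ, hq⟩
  let E' : Ext J' A' (NonUnitalAlgHom.range π₀) := ⟨ι', π.comp ψ, hi', fun a => (hπ (ψ a)).trans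
    ⟨fun ⟨y, hy⟩ => hp a y hy, fun ⟨y, hy⟩ => ⟨φ y, hy ▸ h1 y⟩⟩, hq.comp hs⟩
  obtain ⟨k, a, ha⟩ := E.exists_indexOf (h x.1 x.2)
  exact ⟨⟨E'.indexOf a, E'.indexOf_mem a⟩,
    Subtype.ext ((nat_indexOf E E' φ ψ h1 (fun _ => rfl) a).trans ha)⟩

variable [TopologicalSpace J] [IsTopologicalRing J] [ContinuousConstSMul ℝ J]
  [TopologicalSpace A] [IsTopologicalRing A] [ContinuousConstSMul ℝ A]
  [TopologicalSpace J'] [IsTopologicalRing J'] [ContinuousConstSMul ℝ J']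
  [TopologicalSpace A'] [IsTopologicalRing A'] [ContinuousConstSMul ℝ A']

theorem exists_susp {n : ℕ} (ι : J →ₙₐ[ℝ] A) (hi : IsEmbedding ι) (f : Susp n A)
    (h : ∀ y, ∃ x, ι x = f y) : ∃ g, suspMap n ι hi.continuous g = f := by
  choose g hg using h
  have h2 : (ι : J → A) ∘ g = f := funext hg
  refine ⟨⟨⟨g, hi.continuous_iff.2 (h2 ▸ map_continuous f)⟩, ?_⟩,
    ZeroAtInftyContinuousMap.ext hg⟩
  refine hi.tendsto_nhds_iff.2 ?_
  change Tendsto ((ι : J → A) ∘ g) _ _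
  rw [map_zero, h2]
  exact zero_at_infty f

/-- The map induced by `ι` on `KO n` vanishes. -/
def DiesS (n : ℕ) (ι : J →ₙₐ[ℝ] A) (h : Continuous ι) : Prop :=
  Dies (J := Susp n J) (A := Susp n A) (suspMap n ι h)

theorem surj_susp (n : ℕ) (ι : J →ₙₐ[ℝ] A) (ι' : J' →ₙₐ[ℝ] A') (φ : J' →ₙₐ[ℝ] J)
    (ψ : A' →ₙₐ[ℝ] A) (hi : IsEmbedding ι) (hi' : IsEmbedding ι') (hφ : Continuous φ)
    (hψ : Continuous ψ) (hm : ∀ a x, (∃ y, ι y = a * ι x) ∧ ∃ y, ι y = ι x * a)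
    (h1 : ∀ x, ι (φ x) = ψ (ι' x)) (k : A → A') (hk : Continuous k) (hk0 : k 0 = 0)
    (hs : ∀ a, ψ (k a) = a) (hp : ∀ a x, ι x = ψ a → ∃ y, ι' y = a)
    (h : DiesS n ι hi.continuous) : Surjective (KOMap n φ hφ) :=
  surj_of_lift (suspMap n ι hi.continuous) (suspMap n ι' hi'.continuous) _ (suspMap n ψ hψ)
    (fun _ _ e => ZeroAtInftyContinuousMap.ext fun y => hi.injective (DFunLike.congr_fun e y))
    (fun _ _ e => ZeroAtInftyContinuousMap.ext fun y => hi'.injective (DFunLike.congr_fun e y))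
    (fun a x => ⟨exists_susp ι hi _ fun y => (hm (a y) (x y)).1,
      exists_susp ι hi _ fun y => (hm (a y) (x y)).2⟩)
    (fun x => ZeroAtInftyContinuousMap.ext fun y => h1 (x y))
    (fun F => ⟨⟨⟨fun y => k (F y), hk.comp (map_continuous F)⟩,
      (hk.tendsto' 0 0 hk0).comp (zero_at_infty F)⟩,
      ZeroAtInftyContinuousMap.ext fun y => hs (F y)⟩)
    (fun a x e => exists_susp ι' hi' a fun y => hp (a y) (x y) (DFunLike.congr_fun e y)) h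

end Alg

variable {Γ X Z : Type} [Group Γ] [MetricSpace X] [MulAction Γ Z] {pos : Z → X}

/-- A subalgebra of a normed algebra without unit. -/
def mkSub {B : Type} [NonUnitalNormedRing B] [NormedSpace ℝ B] (s : Set B)
    (h1 : ∀ f ∈ s, ∀ g ∈ s, f + g ∈ s) (h2 : 0 ∈ s) (h3 : ∀ f ∈ s, ∀ g ∈ s, f * g ∈ s)
    (h4 : ∀ c : ℝ, ∀ f ∈ s, c • f ∈ s) : NonUnitalSubalgebra ℝ B where
  carrier := s
  add_mem' hf hg := h1 _ hf _ hg
  zero_mem' := h2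
  mul_mem' hf hg := h3 _ hf _ hg
  smul_mem' := h4

variable (Γ pos) in
/-- Paths in `𝒟` that are constant modulo `C*`, starting in `D*`. -/
abbrev PA (𝒟 : Subalgebra ℝ (ℝ≥0 →ᵇ Op Z)) := mkSub (B := ℝ≥0 →ᵇ Op Z)
  {f | f ∈ 𝒟 ∧ f 0 ∈ Dstar Γ pos ∧ ∀ t, f t - f 0 ∈ Cstar Γ pos}
  (fun f hf g hg => ⟨𝒟.add_mem hf.1 hg.1, (Dstar Γ pos).add_mem hf.2.1 hg.2.1, fun t => by
    have : (f + g) t - (f + g) 0 = (f t - f 0) + (g t - g 0) := by
      simp only [BoundedContinuousFunction.add_apply]; abel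
    exact this ▸ (Cstar Γ pos).add_mem (hf.2.2 t) (hg.2.2 t)⟩)
  ⟨𝒟.zero_mem, (Dstar Γ pos).zero_mem, fun t => by simp⟩
  (fun f hf g hg => ⟨𝒟.mul_mem hf.1 hg.1, (Dstar Γ pos).mul_mem hf.2.1 hg.2.1, fun t => by
    have : (f * g) t - (f * g) 0 =
        (f t - f 0) * (g t - g 0) + ((f t - f 0) * g 0 + f 0 * (g t - g 0)) := by
      simp only [BoundedContinuousFunction.mul_apply]; noncomm_ring
    exact this ▸ (Cstar Γ pos).add_mem ((Cstar Γ pos).mul_mem (hf.2.2 t) (hg.2.2 t))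
      ((Cstar Γ pos).add_mem (Cstar_mul_right (hf.2.2 t) hg.2.1)
        (Cstar_mul_left hf.2.1 (hg.2.2 t)))⟩)
  (fun c f hf => ⟨𝒟.smul_mem hf.1 c, (Dstar Γ pos).smul_mem hf.2.1 c, fun t => by
    have : (c • f) t - (c • f) 0 = c • (f t - f 0) := by
      simp only [BoundedContinuousFunction.smul_apply, smul_sub]
    exact this ▸ (Cstar Γ pos).smul_mem c (hf.2.2 t)⟩)

/-- Evaluation at time zero on `PA`. -/
def evP (𝒟 : Subalgebra ℝ (ℝ≥0 →ᵇ Op Z)) : PA Γ pos 𝒟 →ₙₐ[ℝ] Dstar Γ pos where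
  toFun f := ⟨f.1 0, f.2.2.1⟩
  map_smul' _ _ := rfl
  map_zero' := rfl
  map_add' _ _ := rfl
  map_mul' _ _ := rfl

theorem continuous_evP (𝒟 : Subalgebra ℝ (ℝ≥0 →ᵇ Op Z)) :
    Continuous (evP (Γ := Γ) (pos := pos) 𝒟) :=
  ((continuous_eval_const (0 : ℝ≥0)).comp continuous_subtype_val).subtype_mk _

variable (Γ pos) in
/-- The inclusion `C* → D*`. -/
def inclCD : Cstar Γ pos →ₙₐ[ℝ] Dstar Γ pos where
  toFun T := ⟨T.1, Dstar_of_Cstar T.2⟩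
  map_smul' _ _ := rfl
  map_zero' := rfl
  map_add' _ _ := rfl
  map_mul' _ _ := rfl

theorem emb_inclCD : IsEmbedding (inclCD Γ pos) :=
  IsEmbedding.subtypeVal.codRestrict (Dstar Γ pos : Set (Op Z)) fun T => Dstar_of_Cstar T.2

theorem ae (𝒟 : Subalgebra ℝ (ℝ≥0 →ᵇ Op Z)) (κ : Op Z → (ℝ≥0 →ᵇ Op Z)) (hc : Continuous κ)
    (h0 : κ 0 = 0)
    (hκ : ∀ T ∈ Dstar Γ pos, κ T ∈ 𝒟 ∧ κ T 0 = T ∧ ∀ t, κ T t - T ∈ Cstar Γ pos)
    (hL : ∀ f, f ∈ Loc Γ pos ↔ f ∈ 𝒟 ∧ ∀ t, f t ∈ Cstar Γ pos) (n : ℕ)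
    (h : DiesS (J := Cstar Γ pos) (A := Dstar Γ pos) n (inclCD Γ pos) emb_inclCD.continuous) :
    Surjective (assembly Γ pos n) := by
  have hle : ∀ f ∈ Loc Γ pos, f ∈ PA Γ pos 𝒟 := fun f hf =>
    ⟨((hL f).1 hf).1, Dstar_of_Cstar (mem_Cstar Γ hf 0),
      fun t => (Cstar Γ pos).sub_mem (mem_Cstar Γ hf t) (mem_Cstar Γ hf 0)⟩
  let ι : Loc Γ pos →ₙₐ[ℝ] PA Γ pos 𝒟 :=
    { toFun := fun f => ⟨f.1, hle _ f.2⟩
      map_smul' := fun _ _ => rfl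
      map_zero' := rfl
      map_add' := fun _ _ => rfl
      map_mul' := fun _ _ => rfl }
  have hι : IsEmbedding ι :=
    IsEmbedding.subtypeVal.codRestrict (PA Γ pos 𝒟 : Set _) fun f => hle _ f.2
  refine surj_susp (J := Cstar Γ pos) (A := Dstar Γ pos) (J' := Loc Γ pos) (A' := PA Γ pos 𝒟)
    n (inclCD Γ pos) ι (ev0 Γ pos) (evP 𝒟) emb_inclCD hι (continuous_ev0 Γ pos)
    (continuous_evP 𝒟) (fun a x => ⟨⟨⟨_, Cstar_mul_left a.2 x.2⟩, rfl⟩,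
      ⟨_, Cstar_mul_right x.2 a.2⟩, rfl⟩) (fun _ => rfl)
    (fun T => ⟨κ T, (hκ T T.2).1, (hκ T T.2).2.1.symm ▸ T.2,
      fun t => (hκ T T.2).2.1.symm ▸ (hκ T T.2).2.2 t⟩)
    ((hc.comp continuous_subtype_val).subtype_mk _) (Subtype.ext h0)
    (fun T => Subtype.ext (hκ T T.2).2.1) (fun f K hK => ?_) h
  have h0 : f.1 0 ∈ Cstar Γ pos := by
    have : (K : Op Z) = f.1 0 := congrArg Subtype.val hK
    exact this ▸ K.2
  exact ⟨⟨f.1, (hL _).2 ⟨f.2.1, fun t => by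
    simpa using (Cstar Γ pos).add_mem (f.2.2.2 t) h0⟩⟩, rfl⟩

end Pool.Agent.Lib.BCL
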