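import Pool.Agent.Lib.BC.Small
import Pool.Agent.Lib.BCH.REDa

/-! An approximate unit of `C*` made of invariant multiplication operators. -/

noncomputable section

open Filter Topology
open scoped NNReal

namespace Pool.Agent.Lib.BCL

open Pool.Agent.Lib.BCH Pool.Agent.Lib.BCH.RED

namespace EX

/-- The ramp function. -/
def rm (t : ℝ) : ℝ := max 0 (min 1 t)

theorem rm_nonneg (t : ℝ) : 0 ≤ rm t := le_max_left _ _

theorem rm_le (t : ℝ) : rm t ≤ 1 := max_le zero_le_one (min_le_left _ _)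

theorem abs_rm (t : ℝ) : |rm t| ≤ 1 := (abs_of_nonneg (rm_nonneg t)).trans_le (rm_le t)

theorem rm_zero {t : ℝ} (h : t ≤ 0) : rm t = 0 := max_eq_left ((min_le_right _ _).trans h)

theorem rm_one {t : ℝ} (h : 1 ≤ t) : rm t = 1 := by
  rw [rm, min_eq_left h, max_eq_right zero_le_one]

theorem rm_lip (s t : ℝ) : |rm s - rm t| ≤ |s - t| := by
  rw [rm, rm, max_comm, max_comm 0]
  refine (abs_max_sub_max_le_abs _ _ _).trans ((abs_min_sub_min_le_max _ _ _ _).trans ?_)
  simp

variable {Γ X Z : Type} [Group Γ] [MetricSpace X] [MulAction Γ X] [IsIsometricSMul Γ X]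
  [MulAction Γ Z] {o : X} {pos : Z → X}

theorem exists_fund (hS : Setup Γ pos o) :
    ∃ (Q : Type) (m : Z → Q) (rp : Q → Z) (ρ : Z → Γ) (D : ℝ), Fund Γ o pos m rp ρ D := by
  obtain ⟨D, hD⟩ := hS.cocpt
  choose g hg using hD
  let m : Z → MulAction.orbitRel.Quotient Γ Z := Quotient.mk''
  have hm : ∀ (k : Γ) a, m (k • a) = m a := fun k a => Quotient.sound' ⟨k, rfl⟩
  let rp : MulAction.orbitRel.Quotient Γ Z → Z := fun q => (g (pos q.out))⁻¹ • q.out
  have hr : ∀ q, m (rp q) = q := fun q => (hm _ _).trans q.out_eq'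
  have h1 : ∀ a, ∃ k : Γ, k • rp (m a) = a := fun a => (Quotient.exact' (hr (m a)).symm :)
  choose ρ hρ using h1
  refine ⟨_, m, rp, ρ, D, hS.amp.free, hS.amp.equivariant, hS.proper, hm, hr, hρ, fun q => ?_⟩
  rw [hS.amp.equivariant, ← dist_smul (g (pos q.out)), smul_inv_smul]
  exact hg _

theorem finite_cut {Q : Type} {m : Z → Q} {rp : Q → Z} {ρ : Z → Γ} {D : ℝ}
    (h : Fund Γ o pos m rp ρ D) {F : Set Q} (hF : F.Finite) {B : Set X}
    (hB : Bornology.IsBounded B) : {a | pos a ∈ B ∧ m a ∈ F}.Finite := by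
  obtain ⟨s, hs⟩ := hB.subset_closedBall o
  refine (hF.biUnion fun q _ => (h.proper (s + D)).image fun g => g • rp q).subset fun a ha =>
    Set.mem_biUnion ha.2 ⟨ρ a, (dist_triangle _ (pos a) _).trans (add_le_add ?_ (h.near a)), h.rho a⟩
  rw [dist_comm]
  exact hs ha.1

end EX

open EX in
theorem stEXH : St_EXH := by
  classical
  intro Γ X Z _ _ _ _ _ _ pos o hS
  obtain ⟨Q, m, rp, ρ, D, h⟩ := EX.exists_fund hS
  have := hS.amp.countable
  have : Countable Q := (Function.LeftInverse.injective h.m_rp).countable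
  obtain ⟨N, hN⟩ := Countable.exists_injective_nat Q
  let q : ℝ≥0 → Z → ℝ := fun t z => rm (t - N (m z))
  have hq : ∀ t z, |q t z| ≤ 1 := fun t z => abs_rm _
  have hq' : ∀ t z, |1 - q t z| ≤ 1 := fun t z =>
    (abs_of_nonneg (sub_nonneg.2 (rm_le _))).trans_le (sub_le_self _ (rm_nonneg _))
  have h1 : ∀ t, 1 - mulOp (q t) 1 (hq t) = mulOp _ 1 (hq' t) := fun t => entry_ext fun a b => by
    rw [entry_sub, entry_one, entry_mulOp, entry_mulOp]
    split_ifs <;> simp
  have hn : ∀ t, ‖1 - mulOp (q t) 1 (hq t)‖ ≤ 1 := fun t => by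
    rw [h1]
    exact norm_mulOp_le _ _ _ zero_le_one (hq' t)
  have hi : ∀ t (g : Γ) z, q t (g • z) = q t z := fun t g z => by simp only [q, h.m_smul]
  have hF : ∀ t : ℝ≥0, {x | N x ≤ ⌈(t : ℝ)⌉₊}.Finite := fun t =>
    (Set.finite_Iic _).preimage hN.injOn
  have h0 : ∀ (t : ℝ≥0) z, m z ∉ {x | N x ≤ ⌈(t : ℝ)⌉₊} → q t z = 0 := fun t z hz =>
    rm_zero (sub_nonpos.2 ((Nat.le_ceil _).trans (Nat.cast_le.2 (not_le.1 hz).le)))
  refine ⟨fun t => mulOp (q t) 1 (hq t), entry_ext fun a b => ?_, fun s t => ?_,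
    fun t => ⟨norm_mulOp_le _ _ _ zero_le_one (hq t), hn t⟩,
    fun t => ⟨q t, hi t, fun T a b => ⟨rfl, entry_comp_mulOp _ _ _ T a b⟩⟩,
    fun t T hT ⟨r, hr⟩ => ⟨?_, ?_⟩, fun K hK => ?_⟩
  · rw [entry_mulOp, show q 0 a = 0 from rm_zero (by simp), ite_self, entry_zero]
  · have h2 : ∀ z, |q s z - q t z| ≤ dist s t := fun z => (rm_lip _ _).trans (by
      rw [sub_sub_sub_cancel_right, NNReal.dist_eq])
    rw [show mulOp (q s) 1 (hq s) - mulOp (q t) 1 (hq t) = mulOp _ _ h2 from entry_ext fun a b => by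
      rw [entry_sub, entry_mulOp, entry_mulOp, entry_mulOp]
      split_ifs <;> simp]
    exact norm_mulOp_le _ _ _ dist_nonneg h2
  · have e : ∀ a b, entry (mulOp (q t) 1 (hq t) * T) a b = q t a * entry T a b := fun _ _ => rfl
    have hf : FinR pos pos (mulOp (q t) 1 (hq t) * T) :=
      ⟨r, fun a b h' => by rw [e, hr a b h', mul_zero]⟩
    refine mem_Cstar_iff.2 (C0_le_CR ⟨fun g a b => by rw [e, e, hi, hT], hf,
      SM.lcR_of_cut hf fun B hB => cpt_of_rows (finite_cut h (hF t) hB) fun a ha b => ?_⟩)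
    rw [entry_mulOp_comp, e]
    by_cases h2 : pos a ∈ B
    · rw [h0 t a fun h3 => ha ⟨h2, h3⟩, zero_mul, mul_zero]
    · rw [if_neg h2, zero_mul]
  · have e : ∀ a b, entry (T * mulOp (q t) 1 (hq t)) a b = entry T a b * q t b :=
      entry_comp_mulOp _ _ _ T
    have hf : FinR pos pos (T * mulOp (q t) 1 (hq t)) :=
      ⟨r, fun a b h' => by rw [e, hr a b h', zero_mul]⟩
    refine mem_Cstar_iff.2 (C0_le_CR ⟨fun g a b => by rw [e, e, hi, hT], hf,
      SM.lcR_of_cut hf fun B hB => cpt_of_cols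
        (finite_cut h (hF t) (hB.cthickening (δ := max r 0))) fun b hb a => ?_⟩)
    rw [entry_mulOp_comp, e]
    by_cases h2 : pos a ∈ B
    · by_cases h3 : r < dist (pos a) (pos b)
      · rw [hr a b h3, zero_mul, mul_zero]
      · rw [h0 t b fun h4 => hb ⟨Metric.mem_cthickening_of_dist_le _ _ _ _ h2 ?_, h4⟩, mul_zero,
          mul_zero]
        rw [dist_comm]
        exact (not_lt.1 h3).trans (le_max_left _ _)
    · rw [if_neg h2, zero_mul]
  · have key : ∀ ε > 0, ∀ᶠ t : ℝ≥0 in atTop, ‖K - mulOp (q t) 1 (hq t) * K‖ < ε ∧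
        ‖K - K * mulOp (q t) 1 (hq t)‖ < ε := fun ε hε => by
      obtain ⟨F, hF⟩ := (Metric.tendsto_nhds.1 (h.tendsto_Cstar hK) ε hε).exists
      rw [dist_comm, dist_eq_norm] at hF
      filter_upwards [eventually_ge_atTop ((F.sup N + 1 : ℕ) : ℝ≥0)] with t ht
      have h2 : ∀ a, m a ∈ F → q t a = 1 := fun a ha => rm_one (by
        have h3 : ((F.sup N + 1 : ℕ) : ℝ) ≤ t := by exact_mod_cast ht
        have h4 : (N (m a) : ℝ) ≤ (F.sup N : ℕ) := Nat.cast_le.2 (Finset.le_sup ha)
        push_cast at h3 h4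
        linarith)
      set P := ind {a | m a ∈ F} with hP
      have h3 : mulOp (q t) 1 (hq t) * P = P := entry_ext fun a b => by
        change q t a * entry P a b = _
        rw [hP, ind, entry_mulOp]
        split_ifs with h4 h5
        · rw [h2 a h5, one_mul]
        · simp
        · simp
      have h4 : P * mulOp (q t) 1 (hq t) = P := entry_ext fun a b => by
        refine (entry_comp_mulOp _ _ _ P a b).trans ?_
        rw [hP, ind, entry_mulOp]
        split_ifs with h4 h5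
        · rw [h2 b (h4 ▸ h5), one_mul]
        · simp
        · simp
      constructor
      · have : K - mulOp (q t) 1 (hq t) * K = (1 - mulOp (q t) 1 (hq t)) * (K - P * K * P) := by
          rw [sub_mul, one_mul, mul_sub, ← mul_assoc, ← mul_assoc, h3]
          abel
        rw [this]
        exact ((norm_mul_le _ _).trans (mul_le_of_le_one_left (norm_nonneg _) (hn t))).trans_lt hF
      · have : K - K * mulOp (q t) 1 (hq t) = (K - P * K * P) * (1 - mulOp (q t) 1 (hq t)) := by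
          rw [mul_sub, mul_one, sub_mul, mul_assoc _ P, h4]
          abel
        rw [this]
        exact ((norm_mul_le _ _).trans (mul_le_of_le_one_right (norm_nonneg _) (hn t))).trans_lt hF
    exact ⟨Metric.tendsto_nhds.2 fun ε hε => (key ε hε).mono fun t ht => by simpa using ht.1,
      Metric.tendsto_nhds.2 fun ε hε => (key ε hε).mono fun t ht => by simpa using ht.2⟩

end Pool.Agent.Lib.BCL
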