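import Pool.Agent.Lib.BC.LBlue
import Pool.Agent.Lib.BCH.Roe46

/-! Paths with asymptotically small propagation. -/

noncomputable section

open Filter Topology Finset
open scoped NNReal BoundedContinuousFunction

namespace Pool.Agent.Lib.BCL

open Pool.Agent.Lib.BCH hiding PropLE

section Itp

variable {B : Type} [NormedAddCommGroup B] [NormedSpace ℝ B]

/-- The clamp of `x - j` to `[0, 1]`. -/
def cl (x : ℝ) (j : ℕ) : ℝ := max 0 (min 1 (x - j))

theorem sum_cl {x : ℝ} (hx : 0 ≤ x) (N : ℕ) : ∑ j ∈ range N, cl x j = min x N := by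
  induction N with
  | zero => simp [hx]
  | succ N ih =>
    rw [sum_range_succ, ih, cl]
    push_cast
    simp only [min_def, max_def]
    split_ifs <;> linarith

/-- Piecewise linear interpolation. -/
def itp (h : ℕ → B) (x : ℝ) : B := h ⌊x⌋₊ + (x - ⌊x⌋₊) • (h (⌊x⌋₊ + 1) - h ⌊x⌋₊)

theorem itp_eq (h : ℕ → B) {x : ℝ} (hx : 0 ≤ x) {N : ℕ} (hN : ⌊x⌋₊ + 1 ≤ N) :
    itp h x = h 0 + ∑ j ∈ range N, cl x j • (h (j + 1) - h j) := by
  have h1 := Nat.floor_le hx
  have h2 := Nat.lt_floor_add_one x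
  induction N, hN using Nat.le_induction with
  | base =>
    rw [sum_range_succ, sum_congr rfl (g := fun j => h (j + 1) - h j) fun j hj => by
      have : (j : ℝ) + 1 ≤ ⌊x⌋₊ := by exact_mod_cast mem_range.1 hj
      rw [cl, min_eq_left (by linarith), max_eq_right zero_le_one, one_smul], sum_range_sub, cl,
      min_eq_right (by linarith), max_eq_right (by linarith), itp]
    abel
  | succ N hN ih =>
    have : (⌊x⌋₊ : ℝ) + 1 ≤ N := by exact_mod_cast hN
    rw [sum_range_succ, ih, cl, min_eq_right (by linarith), max_eq_left (by linarith), zero_smul,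
      add_zero]

theorem itp_lip (h : ℕ → B) {C : ℝ} (hC : ∀ j, ‖h (j + 1) - h j‖ ≤ C) {x y : ℝ} (hx : 0 ≤ x)
    (hy : 0 ≤ y) : ‖itp h x - itp h y‖ ≤ C * |x - y| := by
  wlog hxy : y ≤ x generalizing x y
  · rw [norm_sub_rev, abs_sub_comm]
    exact this hy hx (le_of_not_ge hxy)
  have h2 := Nat.lt_floor_add_one x
  rw [itp_eq h hx le_rfl, itp_eq h hy (Nat.succ_le_succ (Nat.floor_mono hxy)), add_sub_add_left_eq_sub,
    ← sum_sub_distrib]
  refine (norm_sum_le_of_le _ (n := fun j => (cl x j - cl y j) * C) fun j _ => ?_).trans ?_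
  · have : cl y j ≤ cl x j := max_le_max le_rfl (min_le_min le_rfl (by linarith))
    rw [← sub_smul, norm_smul, Real.norm_of_nonneg (by linarith)]
    exact mul_le_mul_of_nonneg_left (hC j) (by linarith)
  · rw [← sum_mul, sum_sub_distrib, sum_cl hx, sum_cl hy, min_eq_left (by push_cast; linarith),
      min_eq_left (by push_cast; linarith), abs_of_nonneg (by linarith), mul_comm]

theorem norm_sub_itp (h : ℕ → B) {x : ℝ} (hx : 0 ≤ x) {b : B} {C : ℝ} (h1 : ‖b - h ⌊x⌋₊‖ ≤ C)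
    (h2 : ‖b - h (⌊x⌋₊ + 1)‖ ≤ C) : ‖b - itp h x‖ ≤ C := by
  have h3 := Nat.floor_le hx
  have h4 := Nat.lt_floor_add_one x
  have : b - itp h x = (1 - (x - ⌊x⌋₊)) • (b - h ⌊x⌋₊) + (x - ⌊x⌋₊) • (b - h (⌊x⌋₊ + 1)) := by
    rw [itp]; module
  rw [this]
  refine (norm_add_le _ _).trans ?_
  rw [norm_smul, norm_smul, Real.norm_of_nonneg (by linarith), Real.norm_of_nonneg (by linarith)]
  nlinarith

end Itp

variable (Γ : Type) {X Z : Type} [Group Γ] [MetricSpace X] [MulAction Γ Z] (pos : Z → X)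

/-- `T` is within `δ` of an invariant operator of propagation at most `r`. -/
def AP (r δ : ℝ) (T : Op Z) : Prop := ∃ g, Invariant Γ g ∧ PropLE pos r g ∧ ‖T - g‖ ≤ δ

theorem uc_iff {B : Type} [NormedAddCommGroup B] (f : ℝ≥0 → B) : UniformContinuous f ↔
    Tendsto (fun p : ℝ≥0 × ℝ≥0 => ‖f p.1 - f p.2‖) (uniformity _) (𝓝 0) := by
  simp only [← dist_eq_norm]
  exact tendsto_uniformity_iff_dist_tendsto_zero

theorem uc_mul {B : Type} [NormedRing B] {f g : ℝ≥0 →ᵇ B} (hf : UniformContinuous f)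
    (hg : UniformContinuous g) : UniformContinuous (f * g : ℝ≥0 →ᵇ B) := by
  rw [uc_iff] at hf hg ⊢
  refine squeeze_zero (fun _ => norm_nonneg _) (fun p => ?_)
    (by simpa using (hg.const_mul ‖f‖).add (hf.mul_const ‖g‖))
  have : (f * g) p.1 - (f * g) p.2 = f p.1 * (g p.1 - g p.2) + (f p.1 - f p.2) * g p.2 := by
    simp only [BoundedContinuousFunction.mul_apply]; noncomm_ring
  rw [this]
  exact (norm_add_le _ _).trans (add_le_add ((norm_mul_le _ _).trans
    (mul_le_mul_of_nonneg_right (f.norm_coe_le_norm _) (norm_nonneg _))) ((norm_mul_le _ _).trans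
    (mul_le_mul_of_nonneg_left (g.norm_coe_le_norm _) (norm_nonneg _))))

theorem continuous_mul_const {B : Type} [NormedRing B] (P : ℝ≥0 →ᵇ B) :
    Continuous fun T : B => P * .const _ T :=
  continuous_const.mul (LipschitzWith.of_dist_le' (K := 1) fun s t =>
    (BoundedContinuousFunction.dist_le (by positivity)).2 fun _ => by simp).continuous

theorem ap_scalar (c : ℝ) {r δ : ℝ} (hr : 0 < r) (hδ : 0 < δ) : AP Γ pos r δ (c • 1) := by
  classical
  refine ⟨c • 1, fun g a b => ?_, fun a b h => ?_, by simpa using hδ.le⟩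
  · simp [entry_one]
  · have : a ≠ b := fun e => by rw [e, dist_self] at h; linarith
    simp [entry_one, this]

/-- Uniformly continuous paths with asymptotically small propagation. -/
def DD : Subalgebra ℝ (ℝ≥0 →ᵇ Op Z) where
  carrier := {f | UniformContinuous f ∧ ∀ δ > 0, ∀ r > 0, ∀ᶠ t in atTop, AP Γ pos r δ (f t)}
  mul_mem' {f f'} hf hf' := ⟨uc_mul hf.1 hf'.1, fun δ hδ r hr => by
    have hM : 0 < ‖f‖ + ‖f'‖ + 1 := by positivity
    set d := min 1 (δ / (‖f‖ + ‖f'‖ + 1)) with hd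
    have h0 : 0 < d := by positivity
    have h1 : d ≤ 1 := min_le_left _ _
    have h2 : d * (‖f‖ + ‖f'‖ + 1) ≤ δ := (le_div_iff₀ hM).1 (min_le_right _ _)
    filter_upwards [hf.2 d h0 (r / 2) (by positivity), hf'.2 d h0 (r / 2) (by positivity)] with
      t ⟨g, g1, g2, g3⟩ ⟨g', g1', g2', g3'⟩
    refine ⟨g * g', InvR.comp g1 g1', add_halves r ▸ BCH.PropLE.comp g2 g2', ?_⟩
    have : (f * f') t - g * g' =
        f t * (f' t - g') + (f t - g) * f' t - (f t - g) * (f' t - g') := by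
      simp only [BoundedContinuousFunction.mul_apply]; noncomm_ring
    rw [this]
    have e1 := (norm_mul_le _ _).trans
      (mul_le_mul (f.norm_coe_le_norm t) g3' (norm_nonneg _) (norm_nonneg _))
    have e2 := (norm_mul_le _ _).trans (mul_le_mul g3 (f'.norm_coe_le_norm t) (norm_nonneg _) h0.le)
    have e3 := (norm_mul_le _ _).trans (mul_le_mul g3 (g3'.trans h1) (norm_nonneg _) h0.le)
    refine (norm_sub_le _ _).trans ((add_le_add (norm_add_le _ _) le_rfl).trans ?_)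
    linarith⟩
  add_mem' {f f'} hf hf' := ⟨hf.1.add hf'.1, fun δ hδ r hr => by
    filter_upwards [hf.2 (δ / 2) (by positivity) r hr, hf'.2 (δ / 2) (by positivity) r hr] with
      t ⟨g, g1, g2, g3⟩ ⟨g', g1', g2', g3'⟩
    refine ⟨g + g', fun k a b => by simp [g1 k a b, g1' k a b], BCH.PropLE.add g2 g2', ?_⟩
    rw [BoundedContinuousFunction.add_apply, add_sub_add_comm]
    exact (norm_add_le _ _).trans (by linarith)⟩
  algebraMap_mem' c := ⟨uniformContinuous_const, fun δ hδ r hr =>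
    Eventually.of_forall fun _ => ap_scalar Γ pos c hr hδ⟩

theorem isClosed_DD : IsClosed (DD Γ pos : Set (ℝ≥0 →ᵇ Op Z)) := by
  refine isClosed_of_closure_subset fun f hf => ⟨?_, fun δ hδ r hr => ?_⟩
  · refine Metric.uniformContinuous_iff.2 fun ε hε => ?_
    obtain ⟨g, hg, h⟩ := Metric.mem_closure_iff.1 hf (ε / 3) (by positivity)
    obtain ⟨η, hη, h'⟩ := Metric.uniformContinuous_iff.1 hg.1 (ε / 3) (by positivity)
    refine ⟨η, hη, fun {s t} e => ?_⟩
    linarith [dist_triangle4 (f s) (g s) (g t) (f t), h' e, dist_comm (g t) (f t),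
      BoundedContinuousFunction.dist_coe_le_dist (f := f) (g := g) s,
      BoundedContinuousFunction.dist_coe_le_dist (f := f) (g := g) t]
  · obtain ⟨g, hg, h⟩ := Metric.mem_closure_iff.1 hf (δ / 2) (by positivity)
    filter_upwards [hg.2 (δ / 2) (by positivity) r hr] with t ⟨k, k1, k2, k3⟩
    refine ⟨k, k1, k2, ?_⟩
    rw [← dist_eq_norm] at k3 ⊢
    linarith [dist_triangle (f t) (g t) k,
      BoundedContinuousFunction.dist_coe_le_dist (f := f) (g := g) t]

variable {Γ pos}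

theorem DD_of_Loc {f : ℝ≥0 →ᵇ Op Z} (hf : f ∈ Loc Γ pos) : f ∈ DD Γ pos := by
  refine closure_minimal (t := DD Γ pos) (fun f hf => ?_) (isClosed_DD Γ pos) hf
  induction hf using NonUnitalAlgebra.adjoin_induction with
  | mem x hx =>
    refine ⟨hx.2.1, fun δ hδ r hr => ?_⟩
    obtain ⟨t₀, h⟩ := hx.2.2 r hr
    exact eventually_atTop.2 ⟨t₀, fun t ht => ⟨x t,
      invR_of_DR (mem_Dstar_iff.1 (Dstar_of_Cstar (hx.1 t))), h t ht, by simpa using hδ.le⟩⟩
  | add x y _ _ hx hy => exact (DD Γ pos).add_mem hx hy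
  | zero => exact (DD Γ pos).zero_mem
  | mul x y _ _ hx hy => exact (DD Γ pos).mul_mem hx hy
  | smul c x _ hx => exact (DD Γ pos).smul_mem hx c

variable {Q : ℝ≥0 → Op Z}

theorem Exh.prop (hQ : Exh Γ pos Q) (t : ℝ≥0) {r : ℝ} {g : Op Z} (hg : PropLE pos r g) :
    PropLE pos r (Q t * g) := fun a b h => by
  obtain ⟨f, -, hf⟩ := hQ.diag t
  rw [(hf g a b).1, hg a b h, mul_zero]

theorem Exh.inv (hQ : Exh Γ pos Q) (t : ℝ≥0) {g : Op Z} (hg : Invariant Γ g) :
    Invariant Γ (Q t * g) := fun k a b => by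
  obtain ⟨f, h, hf⟩ := hQ.diag t
  rw [(hf g a b).1, (hf g _ _).1, hg, h]

theorem Exh.compress (hQ : Exh Γ pos Q) {T : Op Z} (hT : T ∈ Cstar Γ pos) {r ε : ℝ} (hε : 0 < ε)
    (h : AP Γ pos r ε T) : ∃ k ∈ Cstar Γ pos, PropLE pos r k ∧ ‖T - k‖ ≤ 2 * ε := by
  obtain ⟨g, g1, g2, g3⟩ := h
  obtain ⟨s, hs⟩ := ((hQ.app T hT).1.eventually_le_const hε).exists
  refine ⟨Q s * g, (hQ.mem s g g1 ⟨r, g2⟩).1, hQ.prop s g2, ?_⟩
  have : T - Q s * g = (T - Q s * T) + Q s * (T - g) := by noncomm_ring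
  have e := (norm_mul_le _ _).trans (mul_le_mul (hQ.norm s).1 g3 (norm_nonneg _) zero_le_one)
  rw [this]
  exact (norm_add_le _ _).trans (by linarith)

theorem Loc_of_DD (hQ : Exh Γ pos Q) {f : ℝ≥0 →ᵇ Op Z} (hf : f ∈ DD Γ pos)
    (hC : ∀ t, f t ∈ Cstar Γ pos) : f ∈ Loc Γ pos := by
  classical
  refine Metric.mem_closure_iff.2 fun ε' hε' => ?_
  obtain ⟨ε, hε, rfl⟩ : ∃ ε > 0, ε' = 4 * ε := ⟨ε' / 4, by positivity, by ring⟩
  obtain ⟨η, hη, hu⟩ := Metric.uniformContinuous_iff_le.1 hf.1 ε hε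
  lift η to ℝ≥0 using hη.le
  let p : ℕ → ℕ → Prop := fun j m => AP Γ pos (1 / ((m : ℝ) + 1)) ε (f (j * η))
  have h1 : ∀ j : ℕ, ∃ k ∈ Cstar Γ pos, ‖f (j * η) - k‖ ≤ 2 * ε ∧
      ∀ m ≤ j, p j m → PropLE pos (1 / ((m : ℝ) + 1)) k := fun j => by
    by_cases h : ∃ m ≤ j, p j m
    · obtain ⟨m, hm, h⟩ := h
      obtain ⟨k, k1, k2, k3⟩ := hQ.compress (hC _) hε (Nat.findGreatest_spec hm h)
      refine ⟨k, k1, k3, fun m' hm' h' => BCH.PropLE.mono k2 ?_⟩
      have : (m' : ℝ) ≤ Nat.findGreatest (p j) j := by exact_mod_cast Nat.le_findGreatest hm' h'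
      exact one_div_le_one_div_of_le (by positivity) (by linarith)
    · exact ⟨f (j * η), hC _, by simpa using hε.le, fun m hm h' => (h ⟨m, hm, h'⟩).elim⟩
  choose k k1 k2 k3 using h1
  have h2 : ∀ (t : ℝ≥0) (j : ℕ), |(t : ℝ) / η - j| ≤ 1 → ‖f t - k j‖ ≤ 3 * ε := fun t j h => by
    have e : dist t (j * η) ≤ η := by
      rw [NNReal.dist_eq]
      push_cast
      have : (t : ℝ) - j * η = (t / η - j) * η := by field_simp
      rw [this, abs_mul, abs_of_pos hη]
      nlinarith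
    have e2 := hu e
    rw [dist_eq_norm] at e2
    linarith [norm_sub_le_norm_sub_add_norm_sub (f t) (f (j * η)) (k j), k2 j]
  have h0 : ∀ t : ℝ≥0, 0 ≤ (t : ℝ) / η := fun t => by positivity
  have h3 : ∀ t : ℝ≥0, ‖f t - itp k (t / η)‖ ≤ 3 * ε := fun t => by
    have e1 := Nat.floor_le (h0 t)
    have e2 := Nat.lt_floor_add_one ((t : ℝ) / η)
    exact norm_sub_itp k (h0 t) (h2 t _ (abs_le.2 ⟨by linarith, by linarith⟩))
      (h2 t _ (abs_le.2 ⟨by push_cast; linarith, by push_cast; linarith⟩))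
  have h4 : ∀ j, ‖k (j + 1) - k j‖ ≤ 6 * ε := fun j => by
    have e : ((j * η : ℝ≥0) : ℝ) / η = j := by push_cast; field_simp
    have e1 := h2 (j * η) j (by rw [e]; simp)
    have e2 := h2 (j * η) (j + 1) (by rw [e]; simp)
    rw [norm_sub_rev] at e2
    linarith [norm_sub_le_norm_sub_add_norm_sub (k (j + 1)) (f (j * η)) (k j)]
  have h5 : UniformContinuous fun t : ℝ≥0 => itp k (t / η) :=
    (LipschitzWith.of_dist_le' (K := 6 * ε / η) fun s t => by
      rw [dist_eq_norm, NNReal.dist_eq]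
      refine (itp_lip k h4 (h0 s) (h0 t)).trans_eq ?_
      rw [← sub_div, abs_div, abs_of_pos hη]
      ring).uniformContinuous
  refine ⟨BoundedContinuousFunction.ofNormedAddCommGroup _ h5.continuous (‖f‖ + 3 * ε) fun t => ?_,
    NonUnitalAlgebra.subset_adjoin ℝ ⟨fun t => ?_, h5, fun r hr => ?_⟩, ?_⟩
  · linarith [norm_sub_norm_le (itp k (t / η)) (f t), norm_sub_rev (itp k (t / η)) (f t), h3 t,
      f.norm_coe_le_norm t]
  · exact (Cstar Γ pos).add_mem (k1 _) ((Cstar Γ pos).smul_mem _ ((Cstar Γ pos).sub_mem (k1 _) (k1 _)))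
  · obtain ⟨m, hm⟩ := exists_nat_one_div_lt hr
    have e0 : Tendsto (fun j : ℕ => (j * η : ℝ≥0)) atTop atTop := by
      refine NNReal.tendsto_coe_atTop.1 ?_
      push_cast
      exact tendsto_natCast_atTop_atTop.atTop_mul_const hη
    obtain ⟨N, hN⟩ := eventually_atTop.1
      ((e0.eventually (hf.2 ε hε _ (Nat.one_div_pos_of_nat (n := m)))).and (eventually_ge_atTop m))
    refine ⟨N * η, fun t ht a b hab => ?_⟩
    have e1 : N ≤ ⌊(t : ℝ) / η⌋₊ := Nat.le_floor ((le_div_iff₀ hη).2 (by exact_mod_cast ht))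
    have e2 : ∀ j ≥ N, entry (k j) a b = 0 := fun j hj =>
      k3 j m (hN j hj).2 (hN j hj).1 a b (hm.trans hab)
    change entry (itp k (t / η)) a b = 0
    simp [itp, e2 _ e1, e2 _ (e1.trans (Nat.le_succ _))]
  · refine ((BoundedContinuousFunction.dist_le (C := 3 * ε) (by positivity)).2 fun t => ?_).trans_lt
      (by linarith)
    rw [dist_eq_norm]
    exact h3 t

theorem exists_kappa (hQ : Exh Γ pos Q) (hS : Small Γ pos) :
    ∃ κ : Op Z → (ℝ≥0 →ᵇ Op Z), Continuous κ ∧ κ 0 = 0 ∧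
      ∀ T ∈ Dstar Γ pos, κ T ∈ DD Γ pos ∧ κ T 0 = T ∧ ∀ t, κ T t - T ∈ Cstar Γ pos := by
  have hu : UniformContinuous fun t => 1 - Q t :=
    (LipschitzWith.of_dist_le' (K := 1) fun s t => by
      rw [dist_sub_left, dist_eq_norm, one_mul]
      exact hQ.lip s t).uniformContinuous
  let P := BoundedContinuousFunction.ofNormedAddCommGroup _ hu.continuous 1 fun t => (hQ.norm t).2
  refine ⟨fun T => P * .const _ T, continuous_mul_const P, mul_zero P, fun T hT =>
    ⟨⟨uc_mul hu uniformContinuous_const, fun δ hδ r hr => ?_⟩, ?_, fun t => ?_⟩⟩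
  · obtain ⟨T', K, h1, h2, h3, h4⟩ := hS T hT r hr (δ / 2) (by positivity)
    filter_upwards [(hQ.app K h3).1.eventually_le_const (half_pos hδ)] with t ht
    refine ⟨T' - Q t * T', fun g a b => by rw [entry_sub, entry_sub, h1, hQ.inv t h1],
      fun a b h => by rw [entry_sub, h2 a b h, hQ.prop t h2 a b h, sub_zero], ?_⟩
    have : (1 - Q t) * T - (T' - Q t * T') = (1 - Q t) * (T - T' - K) + (K - Q t * K) := by
      noncomm_ring
    have e := (norm_mul_le _ _).trans (mul_le_mul (hQ.norm t).2 h4 (norm_nonneg _) zero_le_one)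
    change ‖(1 - Q t) * T - _‖ ≤ δ
    rw [this]
    exact (norm_add_le _ _).trans (by linarith)
  · change (1 - Q 0) * T = T
    rw [hQ.zero, sub_zero, one_mul]
  · have : (1 - Q t) * T - T = -(Q t * 1 * T) := by noncomm_ring
    change (1 - Q t) * T - T ∈ _
    rw [this]
    exact (Cstar Γ pos).neg_mem (Cstar_mul_right
      (hQ.mem t 1 (one_mem_D0 (Γ := Γ) (p := pos)).1 (one_mem_D0 (Γ := Γ) (p := pos)).2.1).1 hT)

end Pool.Agent.Lib.BCL
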