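import Pool.Agent.Lib.BC.LBlue
import Pool.Agent.Lib.BCH.Roe46

/-! The ideal property of `C*` and products of invariant operators. -/

namespace Pool.Agent.Lib.BCL

open Pool.Agent.Lib.BCH

theorem stMUL : St_MUL := fun _ _ _ _ _ _ _ =>
  ⟨fun _ _ hS hT => InvR.comp hS hT, fun _ _ _ _ hS hT => BCH.PropLE.comp hS hT⟩

theorem stIDL : St_IDL := fun _ _ _ _ _ _ _ =>
  ⟨fun _ => Dstar_of_Cstar, fun _ hT _ hK => ⟨Cstar_mul_left hT hK, Cstar_mul_right hK hT⟩⟩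

end Pool.Agent.Lib.BCL
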