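import Pool.Agent.Lib.BC.Kap

/-! Idempotent matrices over a real Banach algebra: statements use only the entries and the
product topology on matrices. -/

noncomputable section
open Finset Filter Topology
open scoped Matrix.Norms.Operator

namespace BCK

section Alg
variable {R : Type*} [Ring R] {n m l : Type*} [Fintype n] [Fintype m] [Fintype l]

/-- All entries lie in `A`. -/
def Ent (A : Set R) {n m : Type*} (x : Matrix n m R) : Prop := ∀ i j, x i j ∈ A

/-- Algebraic equivalence `e = x y`, `f = y x` with entries of `x`, `y` in `A`. -/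
def EqvIn (A : Set R) (e : Matrix n n R) (f : Matrix m m R) : Prop :=
  ∃ (x : Matrix n m R) (y : Matrix m n R), Ent A x ∧ Ent A y ∧ x * y = e ∧ y * x = f

section Ent
variable {σ : Type*} [SetLike σ R] {A : σ} {p q : Type*}

omit [Ring R] in
theorem Ent.mono {S T : Set R} (h : S ⊆ T) {x : Matrix p q R} (hx : Ent S x) : Ent T x :=
  fun i j => h (hx i j)

theorem Ent.add [AddSubgroupClass σ R] {x y : Matrix p q R} (hx : Ent (A : Set R) x)
    (hy : Ent (A : Set R) y) : Ent (A : Set R) (x + y) :=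
  fun i j => add_mem (hx i j : x i j ∈ A) (hy i j)

theorem Ent.sub [AddSubgroupClass σ R] {x y : Matrix p q R} (hx : Ent (A : Set R) x)
    (hy : Ent (A : Set R) y) : Ent (A : Set R) (x - y) :=
  fun i j => sub_mem (hx i j : x i j ∈ A) (hy i j)

theorem Ent.mul [NonUnitalSubringClass σ R] {x : Matrix p n R} {y : Matrix n q R}
    (hx : Ent (A : Set R) x) (hy : Ent (A : Set R) y) : Ent (A : Set R) (x * y) := fun i j => by
  rw [Matrix.mul_apply]
  exact sum_mem (S := A) fun k _ => mul_mem (hx i k : x i k ∈ A) (hy k j)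

theorem ent_one [SubringClass σ R] [DecidableEq p] : Ent (A : Set R) (1 : Matrix p p R) :=
  fun i j => by
    rw [Matrix.one_apply]
    split_ifs
    · exact one_mem A
    · exact zero_mem A

end Ent

theorem EqvIn.mono {S T : Set R} (h : S ⊆ T) {e : Matrix n n R} {f : Matrix m m R}
    (he : EqvIn S e f) : EqvIn T e f := by
  obtain ⟨x, y, hx, hy, h1, h2⟩ := he
  exact ⟨x, y, hx.mono h, hy.mono h, h1, h2⟩

theorem EqvIn.symm {S : Set R} {e : Matrix n n R} {f : Matrix m m R} (he : EqvIn S e f) :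
    EqvIn S f e := by
  obtain ⟨x, y, hx, hy, h1, h2⟩ := he
  exact ⟨y, x, hy, hx, h2, h1⟩

theorem EqvIn.refl {S : Set R} {e : Matrix n n R} (he : e * e = e) (h : Ent S e) : EqvIn S e e :=
  ⟨e, e, h, h, he, he⟩

theorem EqvIn.trans {σ : Type*} [SetLike σ R] [NonUnitalSubringClass σ R] {A : σ}
    {e : Matrix n n R} {f : Matrix m m R} {g : Matrix l l R} (he : e * e = e) (hg : g * g = g)
    (h1 : EqvIn (A : Set R) e f) (h2 : EqvIn (A : Set R) f g) : EqvIn (A : Set R) e g := by
  obtain ⟨x, y, hx, hy, rfl, h3⟩ := h1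
  obtain ⟨z, w, hz, hw, h4, rfl⟩ := h2
  refine ⟨x * z, w * y, hx.mul hz, hw.mul hy, ?_, ?_⟩
  · calc x * z * (w * y) = x * (z * w) * y := by simp only [Matrix.mul_assoc]
      _ = x * y * (x * y) := by rw [h4, ← h3]; simp only [Matrix.mul_assoc]
      _ = _ := he
  · calc w * y * (x * z) = w * (y * x) * z := by simp only [Matrix.mul_assoc]
      _ = w * z * (w * z) := by rw [h3, ← h4]; simp only [Matrix.mul_assoc]
      _ = _ := hg

/-- Similarity by a unit gives equivalence. -/
theorem eqvIn_of_unit {σ : Type*} [SetLike σ R] [NonUnitalSubringClass σ R] {A : σ}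
    [DecidableEq n] {e f : Matrix n n R} (he : e * e = e) (heA : Ent (A : Set R) e)
    (u : (Matrix n n R)ˣ) (hu : Ent (A : Set R) ((u : Matrix n n R) - 1))
    (hu' : Ent (A : Set R) ((↑u⁻¹ : Matrix n n R) - 1)) (h : e * u = u * f) :
    EqvIn (A : Set R) e f := by
  obtain ⟨h1, h2⟩ := equiv_of_unit he u h
  refine ⟨_, _, ?_, ?_, h1, h2⟩
  · have := (heA.mul hu).add heA
    rwa [mul_sub, mul_one, sub_add_cancel] at this
  · have := (hu'.mul heA).add heA
    rwa [sub_mul, one_mul, sub_add_cancel] at this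

end Alg

variable {B B' : Type*} [NormedRing B] [NormedAlgebra ℝ B] [NormedRing B'] [NormedAlgebra ℝ B']
variable {n m : Type*} [Fintype n] [Fintype m] [DecidableEq n] [DecidableEq m]

omit [NormedAlgebra ℝ B] [DecidableEq n] [DecidableEq m] in
theorem norm_entry_le (x : Matrix n m B) (i : n) (j : m) : ‖x i j‖ ≤ ‖x‖ := by
  have h : ‖x i j‖₊ ≤ ‖x‖₊ := by
    rw [Matrix.linfty_opNNNorm_def]
    exact (single_le_sum (f := fun j => ‖x i j‖₊) (fun _ _ => zero_le) (mem_univ j)).trans
      (le_sup (f := fun i => ∑ j, ‖x i j‖₊) (mem_univ i))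
  exact h

omit [NormedAlgebra ℝ B] [DecidableEq n] [DecidableEq m] in
theorem norm_le_sum (x : Matrix n m B) : ‖x‖ ≤ ∑ i, ∑ j, ‖x i j‖ := by
  have h : ‖x‖₊ ≤ ∑ i, ∑ j, ‖x i j‖₊ := by
    rw [Matrix.linfty_opNNNorm_def]
    exact Finset.sup_le fun i _ =>
      single_le_sum (f := fun i => ∑ j, ‖x i j‖₊) (fun _ _ => zero_le) (mem_univ i)
  have h2 := NNReal.coe_le_coe.2 h
  simpa [NNReal.coe_sum] using h2

omit [NormedAlgebra ℝ B] in
theorem isClosed_ent {S : Set B} (hS : IsClosed S) (p q : Type*) :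
    IsClosed {x : Matrix p q B | Ent S x} := by
  simp only [Ent, Set.ofPred_forall]
  exact isClosed_iInter fun i => isClosed_iInter fun j =>
    hS.preimage (continuous_id.matrix_elem i j)

/-- Entrywise form of `Good`. -/
def GoodM (a : Matrix n n B) : Prop :=
  ∀ i j, Summable fun k : ℕ => (4 : ℝ) ^ k * ‖((a * a - a) ^ k) i j‖

/-- `kap` for matrices. -/
def kapM (a : Matrix n n B) : Matrix n n B := kap a

omit [NormedAlgebra ℝ B] in
theorem goodM_iff {a : Matrix n n B} : GoodM a ↔ Good a := by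
  constructor
  · intro h
    refine Summable.of_nonneg_of_le (fun _ => by positivity) (fun k => ?_)
      (summable_sum fun i (_ : i ∈ univ) => summable_sum fun j (_ : j ∈ univ) => h i j)
    simp only [← mul_sum]
    gcongr
    exact norm_le_sum _
  · intro h i j
    refine Summable.of_nonneg_of_le (fun _ => by positivity) (fun k => ?_) h
    gcongr
    exact norm_entry_le _ i j

omit [NormedAlgebra ℝ B] in
theorem goodM_of_idem {a : Matrix n n B} (h : a * a = a) : GoodM a := goodM_iff.2 (good_of_idem h)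

omit [NormedAlgebra ℝ B] in
theorem isOpen_goodM : IsOpen {a : Matrix n n B | GoodM a} := by
  simp only [goodM_iff]
  exact isOpen_good (B := Matrix n n B)

theorem kapM_of_idem {a : Matrix n n B} (h : a * a = a) : kapM a = a := kap_of_idem h

theorem kapM_sub_ent {a : Matrix n n B} (S : Submodule ℝ B) (hS : IsClosed (S : Set B))
    (hq : Ent (S : Set B) (a * a - a)) (ha : ∀ i j, ∀ x ∈ S, a i j * x ∈ S) :
    Ent (S : Set B) (kapM a - a) :=
  fun i j => kap_sub_mem (a := a) (S.matrix) (isClosed_ent hS n n) hq (fun x hx i j => by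
    rw [Matrix.mul_apply]
    exact S.sum_mem fun k _ => ha i k _ (hx k j)) i j

theorem kapM_ent {a : Matrix n n B} (A : NonUnitalSubalgebra ℝ B) (hA : IsClosed (A : Set B))
    (ha : Ent (A : Set B) a) : Ent (A : Set B) (kapM a) := by
  have h := kapM_sub_ent A.toSubmodule hA ((ha.mul ha).sub ha) fun i j x hx => A.mul_mem (ha i j) hx
  have h2 := Ent.add (A := A) h ha
  rwa [sub_add_cancel] at h2

theorem commute_kapM {a b : Matrix n n B} (h : Commute b a) : Commute b (kapM a) := commute_kap h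

theorem mul_kapM_of_mul {a p : Matrix n n B} (h : p * a = a) : p * kapM a = kapM a :=
  mul_kap_of_mul h

theorem kapM_mul_of_mul {a p : Matrix n n B} (h : a * p = a) : kapM a * p = kapM a :=
  kap_mul_of_mul h

variable [CompleteSpace B]

omit [NormedAlgebra ℝ B] [DecidableEq n] [DecidableEq m] in
theorem completeM : @CompleteSpace (Matrix n m B) PseudoMetricSpace.toUniformSpace :=
  inferInstanceAs (CompleteSpace (n → m → B))

attribute [local instance] completeM

theorem kapM_idem {a : Matrix n n B} (h : GoodM a) : kapM a * kapM a = kapM a :=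
  kap_idem (goodM_iff.1 h)

theorem continuousAt_kapM {a : Matrix n n B} (h : GoodM a) : ContinuousAt kapM a :=
  continuousAt_kap (goodM_iff.1 h)

/-- Naturality of `kapM` along a continuous ring homomorphism, unital or not. -/
theorem map_kapM {F : Type*} [FunLike F B B'] [NonUnitalRingHomClass F B B'] (f : F)
    (hf : Continuous f) {a : Matrix n n B} (h : GoodM a) : (kapM a).map f = kapM (a.map f) := by
  refine map_kap_on (AddMonoidHom.mapMatrix (f : B →+ B')) (continuous_id.matrix_map hf)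
    (goodM_iff.1 h) ⊤ (by simp) trivial (fun _ _ => trivial) fun x _ => ?_
  ext i j
  simp [Matrix.mul_apply, map_sum]

/-- Near an idempotent matrix `e`, the matrix `kapM a` is an idempotent near `e`. -/
theorem eventually_kapM {e : Matrix n n B} (he : e * e = e) {U : Set (Matrix n n B)}
    (hU : U ∈ 𝓝 e) : ∀ᶠ a in 𝓝 e, GoodM a ∧ kapM a * kapM a = kapM a ∧ kapM a ∈ U := by
  have h1 : ∀ᶠ a in 𝓝 e, GoodM a := isOpen_goodM.mem_nhds (goodM_of_idem he)
  have h2 : ∀ᶠ a in 𝓝 e, kapM a ∈ U :=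
    continuousAt_kapM (goodM_of_idem he) (by rwa [kapM_of_idem he])
  exact (h1.and h2).mono fun a ha => ⟨ha.1, kapM_idem ha.1, ha.2⟩

/-- Matrices near `1` are units whose inverses stay in `1 + M(S)`. -/
theorem eventually_unit : ∀ᶠ x in 𝓝 (1 : Matrix n n B), ∃ u : (Matrix n n B)ˣ, ↑u = x ∧
    ∀ A : NonUnitalSubalgebra ℝ B, IsClosed (A : Set B) → Ent (A : Set B) (x - 1) →
      Ent (A : Set B) ((↑u⁻¹ : Matrix n n B) - 1) := by
  have h1 : ∀ᶠ x in 𝓝 (1 : Matrix n n B), ‖x - 1‖ < 1 :=
    ContinuousAt.eventually_lt (by fun_prop) continuousAt_const (by simp)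
  refine h1.mono fun x hx => ?_
  obtain ⟨u, hu, -⟩ := exists_unit_of_close hx
  refine ⟨u, hu, fun A hA h => ?_⟩
  obtain ⟨v, hv, h2⟩ := exists_unit_mem hx (A.toSubmodule.matrix) (isClosed_ent hA n n) h
    fun y hy => Ent.mul (A := A) h hy
  rwa [show u = v from Units.ext (hu.trans hv.symm)]

/-- Close idempotent matrices are similar; the unit and its inverse lie in `1 + M(A)` for every
closed subalgebra `A` that contains the entries of `(2 e - 1) (f - e)`. -/
theorem eventually_similar {e : Matrix n n B} (he : e * e = e) :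
    ∀ᶠ f in 𝓝 e, f * f = f → ∃ u : (Matrix n n B)ˣ, e * u = u * f ∧
      (u : Matrix n n B) - 1 = (e + e - 1) * (f - e) ∧
      ∀ A : NonUnitalSubalgebra ℝ B, IsClosed (A : Set B) →
        Ent (A : Set B) ((e + e - 1) * (f - e)) →
          Ent (A : Set B) ((↑u⁻¹ : Matrix n n B) - 1) := by
  have hc : Tendsto (fun f => cu e f) (𝓝 e) (𝓝 1) := by
    refine Continuous.tendsto' ?_ _ _ (by simp [cu])
    unfold cu; fun_prop
  refine (hc.eventually eventually_unit).mono fun f ⟨u, hu, h⟩ hf => ⟨u, ?_, ?_, ?_⟩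
  · rw [hu, cu_intertwine he hf]
  · rw [hu, cu_sub_one]
  · rwa [cu_sub_one] at h

/-- Close idempotent matrices over a closed subalgebra are equivalent over it. -/
theorem eventually_eqvIn {e : Matrix n n B} (he : e * e = e) :
    ∀ᶠ f in 𝓝 e, f * f = f → ∀ A : NonUnitalSubalgebra ℝ B, IsClosed (A : Set B) →
      Ent (A : Set B) e → Ent (A : Set B) f → EqvIn (A : Set B) e f := by
  refine (eventually_similar he).mono fun f h hf A hA heA hfA => ?_
  obtain ⟨u, h1, h2, h3⟩ := h hf
  have h4 : Ent (A : Set B) ((e + e - 1) * (f - e)) := by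
    rw [sub_mul, one_mul]
    exact ((heA.add heA).mul (hfA.sub heA)).sub (hfA.sub heA)
  exact eqvIn_of_unit he heA u (by rwa [h2]) (h3 A hA h4) h1

/-- Homotopy invariance inside a closed subalgebra. -/
theorem path_eqvIn {X : Type*} [TopologicalSpace X] [PreconnectedSpace X] {e : X → Matrix n n B}
    (he : Continuous e) (hi : ∀ x, e x * e x = e x) (A : NonUnitalSubalgebra ℝ B)
    (hA : IsClosed (A : Set B)) (h : ∀ x, Ent (A : Set B) (e x)) (x y : X) :
    EqvIn (A : Set B) (e x) (e y) := by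
  obtain ⟨u, h1, h2, h3⟩ := path_similar_on he hi (A.toSubmodule.matrix) (isClosed_ent hA n n)
    (fun s hs t ht => Ent.mul (A := A) hs ht) (fun x s hs => Ent.mul (A := A) (h x) hs)
    (fun x y => Ent.sub (A := A) (h x) (h y)) x y
  exact eqvIn_of_unit (hi x) (h x) u h1 h2 h3

omit [NormedAlgebra ℝ B] in
/-- Homotopy invariance relative to a two-sided ideal. -/
theorem path_similarM {X : Type*} [TopologicalSpace X] [PreconnectedSpace X]
    {e : X → Matrix n n B} (he : Continuous e) (hi : ∀ x, e x * e x = e x) (I : TwoSidedIdeal B)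
    (h : ∀ x y, Ent (I : Set B) (e x - e y)) (x y : X) :
    ∃ u : (Matrix n n B)ˣ, Ent (I : Set B) ((u : Matrix n n B) - 1) ∧
      Ent (I : Set B) ((↑u⁻¹ : Matrix n n B) - 1) ∧ e x * u = u * e y := by
  obtain ⟨u, h1, h2, h3⟩ := path_similar he hi (I.matrix n)
    (fun x y => (TwoSidedIdeal.mem_matrix _ _ _).2 (h x y)) x y
  exact ⟨u, (TwoSidedIdeal.mem_matrix _ _ _).1 h1, (TwoSidedIdeal.mem_matrix _ _ _).1 h2, h3⟩

section Dense
variable {ι : Type*} (A : ι → NonUnitalSubalgebra ℝ B)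

omit [CompleteSpace B] [DecidableEq n] [DecidableEq m] in
/-- Approximation of a matrix by a matrix over one member of a directed family. -/
theorem frequently_ent [Nonempty ι] (hd : Directed (· ≤ ·) A) {x : Matrix n m B}
    (hx : Ent (closure (⋃ i, (A i : Set B))) x) :
    ∃ᶠ y in 𝓝 x, ∃ i, Ent (A i : Set B) y := by
  have h1 : (x : n → m → B) ∈ closure
      (Set.pi Set.univ fun _ : n => Set.pi Set.univ fun _ : m => ⋃ i, (A i : Set B)) :=
    mem_closure_pi.2 fun i _ => mem_closure_pi.2 fun j _ => hx i j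
  refine (mem_closure_iff_frequently.1 h1).mono fun y hy => ?_
  choose k hk using fun p : n × m => Set.mem_iUnion.1 (hy p.1 trivial p.2 trivial)
  obtain ⟨i, hi⟩ := hd.finite_le k
  exact ⟨i, fun a b => hi (a, b) (hk (a, b))⟩

/-- SURJ: an idempotent matrix over the closure of a directed union of closed subalgebras is
equivalent to an idempotent matrix over one of them. -/
theorem surj_dense [Nonempty ι] (hd : Directed (· ≤ ·) A) (hA : ∀ i, IsClosed (A i : Set B))
    (T : NonUnitalSubalgebra ℝ B) (hT : IsClosed (T : Set B)) (hAT : ∀ i, A i ≤ T)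
    (hden : (T : Set B) ⊆ closure (⋃ i, (A i : Set B))) {e : Matrix n n B} (he : e * e = e)
    (heT : Ent (T : Set B) e) :
    ∃ i, ∃ f : Matrix n n B, f * f = f ∧ Ent (A i : Set B) f ∧ EqvIn (T : Set B) e f := by
  obtain ⟨a, ⟨i, hi⟩, -, h1, h2⟩ := ((frequently_ent A hd (heT.mono hden)).and_eventually
    (eventually_kapM he (eventually_eqvIn he))).exists
  have h3 := kapM_ent (A i) (hA i) hi
  exact ⟨i, kapM a, h1, h3, h2 h1 T hT heT (h3.mono (hAT i))⟩

/-- Perturbation of an equivalence. -/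
theorem eventually_eqvIn_pair {x : Matrix n m B} {y : Matrix m n B} {e : Matrix n n B}
    {f : Matrix m m B} (he : e * e = e) (hf : f * f = f) (h1 : x * y = e) (h2 : y * x = f) :
    ∀ᶠ p in 𝓝 (x, y), ∀ S : NonUnitalSubalgebra ℝ B, IsClosed (S : Set B) → Ent (S : Set B) e →
      Ent (S : Set B) f → Ent (S : Set B) p.1 → Ent (S : Set B) p.2 → EqvIn (S : Set B) e f := by
  have hfx : e * x = x * f := by rw [← h1, ← h2, Matrix.mul_assoc]
  have hfy : f * y = y * e := by rw [← h1, ← h2, Matrix.mul_assoc]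
  have c1 : Tendsto (fun p : Matrix n m B × Matrix m n B =>
      1 - e + e * p.1 * f * (f * p.2 * e)) (𝓝 (x, y)) (𝓝 1) := by
    refine Continuous.tendsto' (by fun_prop) _ _ ?_
    have : e * x * f * (f * y * e) = e := by
      rw [Matrix.mul_assoc (e * x), ← Matrix.mul_assoc f, ← Matrix.mul_assoc f, hf, hfy,
        Matrix.mul_assoc y, he, Matrix.mul_assoc e, ← hfy, ← Matrix.mul_assoc x, ← hfx,
        Matrix.mul_assoc e x, h1, he, he]
    rw [this]; simp
  have c2 : Tendsto (fun p : Matrix n m B × Matrix m n B =>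
      1 - f + f * p.2 * e * (e * p.1 * f)) (𝓝 (x, y)) (𝓝 1) := by
    refine Continuous.tendsto' (by fun_prop) _ _ ?_
    have : f * y * e * (e * x * f) = f := by
      rw [Matrix.mul_assoc (f * y), ← Matrix.mul_assoc e, ← Matrix.mul_assoc e, he, hfx,
        Matrix.mul_assoc x, hf, Matrix.mul_assoc f, ← hfx, ← Matrix.mul_assoc y, ← hfy,
        Matrix.mul_assoc f y, h2, hf, hf]
    rw [this]; simp
  refine ((c1.eventually eventually_unit).and (c2.eventually eventually_unit)).mono ?_
  rintro ⟨x', y'⟩ ⟨⟨u, hu, hu'⟩, ⟨v, hv, -⟩⟩ S hS heS hfS hx hy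
  dsimp only at hu hu' hv hx hy
  set a := e * x' * f with ha
  set b := f * y' * e with hb
  have haS : Ent (S : Set B) a := (heS.mul hx).mul hfS
  have hbS : Ent (S : Set B) b := (hfS.mul hy).mul heS
  have ea : e * a = a := by rw [ha, ← Matrix.mul_assoc, ← Matrix.mul_assoc, he]
  have af : a * f = a := by rw [ha, Matrix.mul_assoc, hf]
  have fb : f * b = b := by rw [hb, ← Matrix.mul_assoc, ← Matrix.mul_assoc, hf]
  have be : b * e = b := by rw [hb, Matrix.mul_assoc, he]
  clear_value a b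
  have hw : Ent (S : Set B) ((↑u⁻¹ : Matrix n n B) - 1) := by
    refine hu' S hS ?_
    rw [show 1 - e + a * b - 1 = a * b - e by abel]
    exact (haS.mul hbS).sub heS
  have eu : e * (u : Matrix n n B) = a * b := by
    rw [hu, mul_add, mul_sub, he, ← Matrix.mul_assoc, ea]; simp
  have k1 : a * (b * (↑u⁻¹ : Matrix n n B)) = e := by
    rw [← Matrix.mul_assoc, ← eu, Units.mul_inv_cancel_right]
  refine ⟨a, b * (↑u⁻¹ : Matrix n n B), haS, ?_, k1, ?_⟩
  · have := (hbS.mul hw).add hbS
    rwa [Matrix.mul_sub, Matrix.mul_one, sub_add_cancel] at this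
  · refine (Units.mul_right_inj v).1 ?_
    have l1 : (1 - f) * (b * (↑u⁻¹ : Matrix n n B) * a) = 0 := by
      rw [← Matrix.mul_assoc, ← Matrix.mul_assoc, Matrix.sub_mul, fb]; simp
    have l2 : b * a * (b * (↑u⁻¹ : Matrix n n B) * a) = b * a := by
      rw [Matrix.mul_assoc b a, ← Matrix.mul_assoc a, k1, ea]
    rw [hv, add_mul, add_mul, l1, l2, sub_mul, hf, Matrix.mul_assoc, af]; simp

/-- INJ: idempotent matrices over a member of the family that are equivalent over the closure of
the union are equivalent over a larger member. -/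
theorem inj_dense (hd : Directed (· ≤ ·) A) (hA : ∀ i, IsClosed (A i : Set B)) {i : ι}
    {e : Matrix n n B} {f : Matrix m m B} (he : e * e = e) (hf : f * f = f)
    (heA : Ent (A i : Set B) e) (hfA : Ent (A i : Set B) f)
    (h : EqvIn (closure (⋃ i, (A i : Set B))) e f) : ∃ j, A i ≤ A j ∧ EqvIn (A j : Set B) e f := by
  have : Nonempty ι := ⟨i⟩
  obtain ⟨x, y, hx, hy, h1, h2⟩ := h
  have h3 := eventually_eqvIn_pair he hf h1 h2
  rw [nhds_prod_eq] at h3
  obtain ⟨P, hP, Q, hQ, hPQ⟩ := eventually_prod_iff.1 h3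
  obtain ⟨x', ⟨j, hj⟩, hx'⟩ := ((frequently_ent A hd hx).and_eventually hP).exists
  obtain ⟨y', ⟨k, hk⟩, hy'⟩ := ((frequently_ent A hd hy).and_eventually hQ).exists
  obtain ⟨r, hr1, hr2⟩ := hd j k
  obtain ⟨t, ht1, ht2⟩ := hd i r
  exact ⟨t, ht1, hPQ hx' hy' (A t) (hA t) (heA.mono ht1) (hfA.mono ht1)
    (hj.mono (hr1.trans ht2)) (hk.mono (hr2.trans ht2))⟩

end Dense

section PoU
variable {Y E : Type*} [TopologicalSpace Y] [CompactSpace Y] [NormedAddCommGroup E]
  [NormedSpace ℝ E]

/-- A continuous map on a compact space with values in the closure of `D` is uniformly close to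
a finite convex combination, with continuous coefficients, of elements of `D`. -/
theorem exists_pou_approx (F : C(Y, E)) {D : Set E} (hD : ∀ y, F y ∈ closure D) {ε : ℝ}
    (hε : 0 < ε) : ∃ (s : Finset E) (θ : E → C(Y, ℝ)), (∀ d ∈ s, d ∈ D) ∧ (∀ d y, 0 ≤ θ d y) ∧
      (∀ y, ∑ d ∈ s, θ d y = 1) ∧ (∀ d y, θ d y ≠ 0 → ‖F y - d‖ < ε) ∧
      ∀ y, ‖F y - ∑ d ∈ s, θ d y • d‖ ≤ ε := by
  classical
  obtain ⟨t, ht⟩ := isCompact_univ.elim_finite_subcover
    (fun d : D => {y | ‖F y - (d : E)‖ < ε})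
    (fun d => isOpen_lt (by fun_prop) continuous_const) fun y _ => by
      obtain ⟨d, hd, h⟩ := Metric.mem_closure_iff.1 (hD y) ε hε
      exact Set.mem_iUnion.2 ⟨⟨d, hd⟩, by simpa [dist_eq_norm] using h⟩
  set s : Finset E := t.image (↑) with hs
  set g : E → Y → ℝ := fun d y => max 0 (ε - ‖F y - d‖) with hg
  have hgc : ∀ d, Continuous (g d) := fun d => by rw [hg]; fun_prop
  have hg0 : ∀ d y, 0 ≤ g d y := fun d y => le_max_left _ _
  have hpos : ∀ y, 0 < ∑ d ∈ s, g d y := fun y => by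
    obtain ⟨d, hd, h⟩ : ∃ d ∈ t, ‖F y - (d : E)‖ < ε := by simpa using ht (Set.mem_univ y)
    refine sum_pos' (fun d _ => hg0 d y) ⟨d, mem_image_of_mem _ hd, ?_⟩
    exact lt_max_of_lt_right (by linarith)
  have hne : ∀ d y, g d y / ∑ d ∈ s, g d y ≠ 0 → ‖F y - d‖ < ε := fun d y h => by
    by_contra h2
    apply h
    have : g d y = 0 := max_eq_left (by linarith)
    rw [this, zero_div]
  have hsum : ∀ y, ∑ d ∈ s, g d y / ∑ d ∈ s, g d y = 1 := fun y => by
    rw [← sum_div, div_self (hpos y).ne']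
  refine ⟨s, fun d => ⟨fun y => g d y / ∑ d ∈ s, g d y,
    (hgc d).div (continuous_finsetSum _ fun d _ => hgc d) fun y => (hpos y).ne'⟩, ?_,
    fun d y => div_nonneg (hg0 d y) (hpos y).le, hsum, hne, fun y => ?_⟩
  · intro d hd
    obtain ⟨d', -, rfl⟩ := mem_image.1 hd
    exact d'.2
  · simp only [ContinuousMap.coe_mk]
    have h1 : F y - ∑ d ∈ s, (g d y / ∑ d ∈ s, g d y) • d =
        ∑ d ∈ s, (g d y / ∑ d ∈ s, g d y) • (F y - d) := by
      simp only [smul_sub, sum_sub_distrib, ← sum_smul, hsum, one_smul]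
    rw [h1]
    calc _ ≤ ∑ d ∈ s, (g d y / ∑ d ∈ s, g d y) * ε := by
          refine norm_sum_le_of_le _ fun d _ => ?_
          have h0 := div_nonneg (hg0 d y) (hpos y).le
          rw [norm_smul, Real.norm_of_nonneg h0]
          by_cases h : g d y / ∑ d ∈ s, g d y = 0
          · simp [h]
          · exact mul_le_mul_of_nonneg_left (hne d y h).le h0
      _ = ε := by rw [← sum_mul, hsum, one_mul]

/-- Density of maps with values in one member of a directed family of subspaces. -/
theorem mem_closure_cy {ι : Type*} [Nonempty ι] (S : ι → Submodule ℝ E)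
    (hd : Directed (· ≤ ·) S) (F : C(Y, E)) (hF : ∀ y, F y ∈ closure (⋃ i, (S i : Set E))) :
    F ∈ closure (⋃ i, {G : C(Y, E) | ∀ y, G y ∈ S i}) := by
  refine Metric.mem_closure_iff.2 fun ε hε => ?_
  obtain ⟨s, θ, h1, -, -, -, h2⟩ := exists_pou_approx F hF (half_pos hε)
  choose k hk using fun d : s => Set.mem_iUnion.1 (h1 d.1 d.2)
  obtain ⟨i, hi⟩ := hd.finite_le k
  refine ⟨⟨fun y => ∑ d ∈ s, θ d y • d, by fun_prop⟩, Set.mem_iUnion.2 ⟨i, fun y => ?_⟩, ?_⟩
  · exact (S i).sum_mem fun d hd' => (S i).smul_mem _ (hi ⟨d, hd'⟩ (hk ⟨d, hd'⟩))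
  · refine lt_of_le_of_lt ((ContinuousMap.dist_le (half_pos hε).le).2 fun y => ?_) (half_lt_self hε)
    rw [dist_eq_norm]; exact h2 y

end PoU

section CY
variable (Y : Type*) [TopologicalSpace Y]

omit [CompleteSpace B] in
/-- Continuous maps with values in a subalgebra. -/
def cy (A : NonUnitalSubalgebra ℝ B) : NonUnitalSubalgebra ℝ C(Y, B) where
  carrier := {G | ∀ y, G y ∈ A}
  add_mem' h1 h2 y := A.add_mem (h1 y) (h2 y)
  zero_mem' _ := A.zero_mem
  mul_mem' h1 h2 y := A.mul_mem (h1 y) (h2 y)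
  smul_mem' c _ h y := A.smul_mem c (h y)

omit [CompleteSpace B] in
theorem mem_cy {A : NonUnitalSubalgebra ℝ B} {G : C(Y, B)} : G ∈ cy Y A ↔ ∀ y, G y ∈ A := Iff.rfl

omit [CompleteSpace B] in
theorem cy_mono {A A' : NonUnitalSubalgebra ℝ B} (h : A ≤ A') : cy Y A ≤ cy Y A' :=
  fun _ hG y => h (hG y)

omit [CompleteSpace B] in
theorem isClosed_cy {A : NonUnitalSubalgebra ℝ B} (hA : IsClosed (A : Set B)) :
    IsClosed (cy Y A : Set C(Y, B)) := by
  have : (cy Y A : Set C(Y, B)) = ⋂ y, (fun G : C(Y, B) => G y) ⁻¹' (A : Set B) := by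
    ext G; simp [mem_cy]
  rw [this]
  exact isClosed_iInter fun y => hA.preimage (continuous_eval_const y)

omit [CompleteSpace B] in
theorem cy_dense [CompactSpace Y] {ι : Type*} [Nonempty ι] (A : ι → NonUnitalSubalgebra ℝ B)
    (hd : Directed (· ≤ ·) A) {F : C(Y, B)} (hF : ∀ y, F y ∈ closure (⋃ i, (A i : Set B))) :
    F ∈ closure (⋃ i, (cy Y (A i) : Set C(Y, B))) :=
  mem_closure_cy (fun i => (A i).toSubmodule) (fun i j => hd i j) F hF

omit [CompleteSpace B] in
theorem cy_directed {ι : Type*} {A : ι → NonUnitalSubalgebra ℝ B} (hd : Directed (· ≤ ·) A) :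
    Directed (· ≤ ·) fun i => cy Y (A i) := fun i j =>
  let ⟨k, h1, h2⟩ := hd i j
  ⟨k, cy_mono Y h1, cy_mono Y h2⟩

end CY

end BCK
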