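import Pool.Agent.Lib.BC.AE
import Pool.Agent.Lib.BC.L2
import Pool.Agent.Lib.BC.Exh
import Pool.Agent.Lib.BC.MulIdl
import Pool.Agent.Lib.BCH.Core

/-! Surjectivity of evaluation at time zero on the K-theory of the localization algebra. -/

namespace Pool.Agent.Lib.BCL

open Pool.Agent.Lib.BCH

variable {Γ X Z : Type} [Group Γ] [MetricSpace X] [ProperSpace X] [MulAction Γ X]
  [IsIsometricSMul Γ X] [MulAction Γ Z] {o : X} {pos : Z → X}

theorem onto_of_vanish (hs : Setup Γ pos o) (hV : Vanish Γ pos) (n : ℕ) :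
    Function.Surjective (BCL.assembly Γ pos n) := by
  obtain ⟨Q, hQ⟩ := stEXH Γ X Z pos o hs
  obtain ⟨κ, h1, h2, h3⟩ :=
    exists_kappa hQ (stSMALL Γ X Z pos o hs (stIDL Γ X Z pos) (stMUL Γ X Z pos))
  exact ae (DD Γ pos) κ h1 h2 h3 (fun f => ⟨fun hf => ⟨DD_of_Loc hf, mem_Cstar Γ hf⟩,
    fun h => Loc_of_DD hQ h.1 h.2⟩) n (stSPLIT Γ X Z pos n hV _ fun _ _ => rfl)

theorem onto (hG : Geom Γ o) (hS : SD.SubexpDecay fun r => {g : Γ | dist o (g • o) ≤ r})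
    (hA : IsAmple Γ pos) (n : ℕ) : Function.Surjective (BCL.assembly Γ pos n) :=
  onto_of_vanish ⟨hA, hG.proper, hG.cocpt⟩ (vanish hG hS hA) n

end Pool.Agent.Lib.BCL
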