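import Mathlib

/-! Idempotents near quasi-idempotents in real Banach algebras, and similarity of close
idempotents. -/

noncomputable section
open Finset Filter Topology

namespace BCK

/-- The binomial coefficients of the inverse square root. -/
def cf (m : ℕ) : ℝ := Ring.choose (-1 / 2 : ℝ) m

theorem cf_zero : cf 0 = 1 := by simp [cf]

theorem cf_succ (m : ℕ) : ((m : ℝ) + 1) * cf (m + 1) = cf m * (-1 / 2 - m) := by
  have h := Ring.choose_smul_choose (-1 / 2 : ℝ) (Nat.le_succ m)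
  rw [Nat.succ_eq_add_one, Nat.choose_succ_self_right, Nat.add_sub_cancel_left,
    Ring.choose_one_right, nsmul_eq_mul] at h
  simpa [cf] using h

theorem abs_cf_le (m : ℕ) : |cf m| ≤ 1 := by
  induction m with
  | zero => simp [cf_zero]
  | succ m ih =>
    have h := congrArg abs (cf_succ m)
    have hm : (0 : ℝ) ≤ m := Nat.cast_nonneg m
    rw [abs_mul, abs_mul, abs_of_pos (by linarith : (0 : ℝ) < m + 1),
      abs_of_neg (by linarith : (-1 / 2 - m : ℝ) < 0)] at h
    have h2 : |cf m| * -(-1 / 2 - (m : ℝ)) ≤ (m + 1) * 1 := by nlinarith [abs_nonneg (cf m)]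
    rw [← h] at h2
    exact le_of_mul_le_mul_left h2 (by linarith)

theorem cf_conv (n : ℕ) : ∑ ij ∈ antidiagonal n, cf ij.1 * cf ij.2 = (-1) ^ n := by
  have h := Ring.add_choose_eq (r := (-1 / 2 : ℝ)) (s := (-1 / 2 : ℝ)) n (Commute.refl _)
  rw [show (-1 / 2 + -1 / 2 : ℝ) = -1 by norm_num, Ring.choose_neg', Ring.multichoose_one] at h
  simp only [cf]
  rw [← h]
  rcases Nat.even_or_odd n with hn | hn
  · rw [Int.negOnePow_even _ (by exact_mod_cast hn), hn.neg_one_pow]; simp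
  · rw [Int.negOnePow_odd _ (by exact_mod_cast hn), hn.neg_one_pow]; simp

variable {B B' : Type*} [NormedRing B] [NormedAlgebra ℝ B] [NormedRing B'] [NormedAlgebra ℝ B']

/-- The defect `a * a - a` has spectral radius below one quarter. -/
def Good (a : B) : Prop := Summable fun m : ℕ => (4 : ℝ) ^ m * ‖(a * a - a) ^ m‖

/-- One term of the series of `(1 + 4 (a * a - a)) ^ (-1/2)`. -/
def term (a : B) (m : ℕ) : B := (cf m * 4 ^ m) • (a * a - a) ^ m

/-- The series of `(1 + 4 (a * a - a)) ^ (-1/2) - 1`. -/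
def ser (a : B) : B := ∑' m, term a (m + 1)

/-- The idempotent attached to a quasi-idempotent. -/
def kap (a : B) : B := a + (a * ser a - (1 / 2 : ℝ) • ser a)

theorem norm_term_le (a : B) (m : ℕ) : ‖term a m‖ ≤ (4 : ℝ) ^ m * ‖(a * a - a) ^ m‖ := by
  rw [term, norm_smul, Real.norm_eq_abs, abs_mul, abs_of_pos (by positivity : (0 : ℝ) < 4 ^ m)]
  have h1 := abs_cf_le m
  have h2 : (0 : ℝ) ≤ 4 ^ m * ‖(a * a - a) ^ m‖ := by positivity
  calc |cf m| * 4 ^ m * ‖(a * a - a) ^ m‖ = |cf m| * (4 ^ m * ‖(a * a - a) ^ m‖) := by ring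
    _ ≤ 1 * (4 ^ m * ‖(a * a - a) ^ m‖) := by gcongr
    _ = _ := one_mul _

theorem Good.summable_norm {a : B} (h : Good a) : Summable fun m => ‖term a m‖ :=
  Summable.of_nonneg_of_le (fun _ => norm_nonneg _) (norm_term_le a) h

theorem Good.summable_norm_succ {a : B} (h : Good a) : Summable fun m => ‖term a (m + 1)‖ :=
  (summable_nat_add_iff 1).2 h.summable_norm

omit [NormedAlgebra ℝ B] in
theorem good_of_le {a : B} {u : ℕ → ℝ} (hu : Summable u)
    (h : ∀ m, (4 : ℝ) ^ (m + 1) * ‖(a * a - a) ^ (m + 1)‖ ≤ u m) : Good a :=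
  (summable_nat_add_iff 1).1 (Summable.of_nonneg_of_le (fun _ => by positivity) h hu)

omit [NormedAlgebra ℝ B] in
theorem pow_bound (a : B) (m : ℕ) :
    (4 : ℝ) ^ (m + 1) * ‖(a * a - a) ^ (m + 1)‖ ≤ (4 * ‖a * a - a‖) ^ (m + 1) := by
  rw [mul_pow]
  gcongr
  exact norm_pow_le' _ (Nat.succ_pos m)

omit [NormedAlgebra ℝ B] in
theorem good_of_norm_lt {a : B} (h : ‖a * a - a‖ < 1 / 4) : Good a := by
  refine good_of_le (u := fun m => (4 * ‖a * a - a‖) ^ (m + 1)) ?_ (pow_bound a)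
  exact (summable_nat_add_iff 1).2 (summable_geometric_of_lt_one (by positivity) (by linarith))

omit [NormedAlgebra ℝ B] in
theorem good_of_idem {a : B} (h : a * a = a) : Good a :=
  good_of_norm_lt (by rw [h]; simp)

theorem ser_of_idem {a : B} (h : a * a = a) : ser a = 0 := by simp [ser, term, h]

theorem kap_of_idem {a : B} (h : a * a = a) : kap a = a := by simp [kap, ser_of_idem h]

theorem commute_term {a b : B} (h : Commute b a) (m : ℕ) : Commute b (term a m) :=
  (((h.mul_right h).sub_right h).pow_right m).smul_right _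

theorem commute_ser {a b : B} (h : Commute b a) : Commute b (ser a) :=
  Commute.tsum_right _ fun m => commute_term h (m + 1)

theorem commute_kap {a b : B} (h : Commute b a) : Commute b (kap a) :=
  h.add_right ((h.mul_right (commute_ser h)).sub_right ((commute_ser h).smul_right _))

theorem norm_ser_le {a : B} (h : Good a) :
    ‖ser a‖ ≤ ∑' m : ℕ, (4 : ℝ) ^ (m + 1) * ‖(a * a - a) ^ (m + 1)‖ :=
  tsum_of_norm_bounded ((summable_nat_add_iff 1).2 h).hasSum fun m => norm_term_le a (m + 1)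

theorem norm_kap_sub_le_ser (a : B) : ‖kap a - a‖ ≤ (‖a‖ + 1 / 2) * ‖ser a‖ := by
  rw [kap, add_sub_cancel_left]
  calc ‖a * ser a - (1 / 2 : ℝ) • ser a‖ ≤ ‖a * ser a‖ + ‖(1 / 2 : ℝ) • ser a‖ := norm_sub_le _ _
    _ ≤ ‖a‖ * ‖ser a‖ + 1 / 2 * ‖ser a‖ := by
      rw [norm_smul, Real.norm_eq_abs, abs_of_pos (by norm_num : (0 : ℝ) < 1 / 2)]
      gcongr
      exact norm_mul_le _ _
    _ = _ := by ring

theorem norm_kap_sub_le {a : B} (h : Good a) :
    ‖kap a - a‖ ≤ (‖a‖ + 1 / 2) * ∑' m : ℕ, (4 : ℝ) ^ (m + 1) * ‖(a * a - a) ^ (m + 1)‖ :=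
  (norm_kap_sub_le_ser a).trans (by gcongr; exact norm_ser_le h)

theorem norm_ser_le_of_small {a : B} (h : ‖a * a - a‖ ≤ 1 / 8) : ‖ser a‖ ≤ 8 * ‖a * a - a‖ := by
  set r := 4 * ‖a * a - a‖ with hr
  have h0 : 0 ≤ r := by positivity
  have h1 : r ≤ 1 / 2 := by linarith
  have hs : HasSum (fun m : ℕ => r ^ (m + 1)) (r * (1 - r)⁻¹) := by
    simpa [pow_succ'] using (hasSum_geometric_of_lt_one h0 (by linarith)).mul_left r
  have h2 : ‖ser a‖ ≤ r * (1 - r)⁻¹ :=
    tsum_of_norm_bounded hs fun m => (norm_term_le a (m + 1)).trans (pow_bound a m)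
  have h3 : (1 - r)⁻¹ ≤ 2 := by
    rw [inv_le_comm₀ (by linarith) (by norm_num)]; linarith
  calc ‖ser a‖ ≤ r * 2 := h2.trans (by gcongr)
    _ = _ := by rw [hr]; ring

/-- Quantitative closeness of `kap a` to `a`. -/
theorem norm_kap_sub_le_of_small {a : B} (h : ‖a * a - a‖ ≤ 1 / 8) :
    ‖kap a - a‖ ≤ (8 * ‖a‖ + 4) * ‖a * a - a‖ :=
  calc ‖kap a - a‖ ≤ (‖a‖ + 1 / 2) * (8 * ‖a * a - a‖) :=
        (norm_kap_sub_le_ser a).trans (by gcongr; exact norm_ser_le_of_small h)
    _ = _ := by ring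

omit [NormedAlgebra ℝ B] in
theorem defect_mul (a x : B) : (a * a - a) * x = a * (a * x) - a * x := by
  rw [sub_mul, mul_assoc]

theorem pow_mem {a : B} (S : Submodule ℝ B) (hq : a * a - a ∈ S) (ha : ∀ x ∈ S, a * x ∈ S)
    (m : ℕ) : (a * a - a) ^ (m + 1) ∈ S := by
  induction m with
  | zero => simpa using hq
  | succ m ih =>
    rw [pow_succ', defect_mul]
    exact S.sub_mem (ha _ (ha _ ih)) (ha _ ih)

theorem tsum_mem_closed {ι : Type*} (S : Submodule ℝ B) (hS : IsClosed (S : Set B)) {f : ι → B}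
    (hf : ∀ i, f i ∈ S) : ∑' i, f i ∈ S := by
  by_cases h : Summable f
  · exact hS.mem_of_tendsto h.hasSum (Eventually.of_forall fun s => S.sum_mem fun i _ => hf i)
  · rw [tsum_eq_zero_of_not_summable h]; exact S.zero_mem

theorem ser_mem {a : B} (S : Submodule ℝ B) (hS : IsClosed (S : Set B)) (hq : a * a - a ∈ S)
    (ha : ∀ x ∈ S, a * x ∈ S) : ser a ∈ S :=
  tsum_mem_closed S hS fun m => S.smul_mem _ (pow_mem S hq ha m)

/-- `kap a - a` lies in every closed subspace that contains the defect and is stable under left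
multiplication by `a`. -/
theorem kap_sub_mem {a : B} (S : Submodule ℝ B) (hS : IsClosed (S : Set B)) (hq : a * a - a ∈ S)
    (ha : ∀ x ∈ S, a * x ∈ S) : kap a - a ∈ S := by
  rw [kap, add_sub_cancel_left]
  exact S.sub_mem (ha _ (ser_mem S hS hq ha)) (S.smul_mem _ (ser_mem S hS hq ha))

theorem kap_mem {a : B} (S : Submodule ℝ B) (hS : IsClosed (S : Set B)) (h : a ∈ S)
    (ha : ∀ x ∈ S, a * x ∈ S) : kap a ∈ S := by
  have := S.add_mem (kap_sub_mem S hS (S.sub_mem (ha _ h) h) ha) h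
  simpa using this

theorem kap_sub_mem_ideal {a : B} (I : Ideal B) (hI : IsClosed (I : Set B)) (hq : a * a - a ∈ I) :
    kap a - a ∈ I :=
  kap_sub_mem (I.restrictScalars ℝ) hI hq fun _ hx => I.mul_mem_left a hx

theorem kap_sub_mem_twoSided {a : B} (I : TwoSidedIdeal B) (hI : IsClosed (I : Set B))
    (hq : a * a - a ∈ I) : kap a - a ∈ I :=
  kap_sub_mem_ideal (TwoSidedIdeal.asIdeal I) hI hq

theorem kap_mem_nonUnitalSubalgebra {a : B} (A : NonUnitalSubalgebra ℝ B)
    (hA : IsClosed (A : Set B)) (h : a ∈ A) : kap a ∈ A :=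
  kap_mem A.toSubmodule hA h fun _ hx => A.mul_mem h hx

theorem kap_mem_subalgebra {a : B} (A : Subalgebra ℝ B) (hA : IsClosed (A : Set B)) (h : a ∈ A) :
    kap a ∈ A :=
  kap_mem (Subalgebra.toSubmodule A) hA h fun _ hx => A.mul_mem h hx

/-- One-sided annihilators and corners are preserved. -/
theorem mul_kap_eq_zero {a p : B} (h : p * a = 0) : p * kap a = 0 := by
  have hs : p * ser a = 0 := by
    by_cases hsum : Summable fun m => term a (m + 1)
    · rw [ser, ← hsum.tsum_mul_left]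
      have : ∀ m, p * term a (m + 1) = 0 := fun m => by
        rw [term, mul_smul_comm, pow_succ' (a * a - a), ← mul_assoc p, mul_sub, ← mul_assoc p, h]
        simp
      simp [this]
    · rw [ser, tsum_eq_zero_of_not_summable hsum, mul_zero]
  rw [kap, mul_add, mul_sub, ← mul_assoc, h, mul_smul_comm, hs]; simp

theorem kap_mul_eq_zero {a p : B} (h : a * p = 0) : kap a * p = 0 := by
  have hs : ser a * p = 0 := by
    by_cases hsum : Summable fun m => term a (m + 1)
    · rw [ser, ← hsum.tsum_mul_right]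
      have : ∀ m, term a (m + 1) * p = 0 := fun m => by
        rw [term, smul_mul_assoc, pow_succ (a * a - a), mul_assoc _ _ p, sub_mul, mul_assoc _ _ p, h]
        simp
      simp [this]
    · rw [ser, tsum_eq_zero_of_not_summable hsum, zero_mul]
  rw [kap, add_mul, sub_mul, mul_assoc, hs, h, smul_mul_assoc, hs]; simp

theorem mul_kap_of_mul {a p : B} (h : p * a = a) : p * kap a = kap a := by
  have := mul_kap_eq_zero (a := a) (p := 1 - p) (by rw [sub_mul, h]; simp)
  rw [sub_mul, one_mul, sub_eq_zero] at this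
  exact this.symm

theorem kap_mul_of_mul {a p : B} (h : a * p = a) : kap a * p = kap a := by
  have := kap_mul_eq_zero (a := a) (p := 1 - p) (by rw [mul_sub, h]; simp)
  rw [mul_sub, mul_one, sub_eq_zero] at this
  exact this.symm

omit [NormedAlgebra ℝ B] in
/-- A locally uniform geometric majorant near a good element. -/
theorem Good.exists_majorant {a : B} (h : Good a) :
    ∃ C θ : ℝ, 0 ≤ θ ∧ θ < 1 ∧
      ∀ᶠ b in 𝓝 a, ∀ m, (4 : ℝ) ^ m * ‖(b * b - b) ^ m‖ ≤ C * θ ^ m := by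
  obtain ⟨n, hn0, hn⟩ : ∃ n, 0 < n ∧ (4 : ℝ) ^ n * ‖(a * a - a) ^ n‖ < 1 := by
    have h1 := (h.tendsto_atTop_zero.eventually (gt_mem_nhds zero_lt_one)).and
      (eventually_gt_atTop 0)
    obtain ⟨n, h2, h3⟩ := h1.exists
    exact ⟨n, h3, h2⟩
  obtain ⟨θ, hθ0, hθ1, hθ⟩ : ∃ θ : ℝ, 0 < θ ∧ θ < 1 ∧ (4 : ℝ) ^ n * ‖(a * a - a) ^ n‖ < θ ^ n := by
    have h1 : ∀ᶠ θ : ℝ in 𝓝 1, (4 : ℝ) ^ n * ‖(a * a - a) ^ n‖ < θ ^ n :=
      ((continuous_pow n).tendsto' 1 1 (one_pow n)).eventually (lt_mem_nhds hn)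
    have h2 : ∀ᶠ θ : ℝ in 𝓝[<] 1, 0 < θ ∧ θ < 1 ∧ (4 : ℝ) ^ n * ‖(a * a - a) ^ n‖ < θ ^ n :=
      Filter.Eventually.and (nhdsWithin_le_nhds (lt_mem_nhds zero_lt_one))
        (Filter.Eventually.and self_mem_nhdsWithin (nhdsWithin_le_nhds h1))
    exact h2.exists
  have hc : ∀ k : ℕ, Continuous fun b : B => (4 : ℝ) ^ k * ‖(b * b - b) ^ k‖ := fun k => by
    fun_prop
  set C : ℝ := ∑ r ∈ range n, ((4 : ℝ) ^ r * ‖(a * a - a) ^ r‖ + 1) / θ ^ r with hC
  have e1 : ∀ᶠ b in 𝓝 a, (4 : ℝ) ^ n * ‖(b * b - b) ^ n‖ < θ ^ n :=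
    (hc n).continuousAt.eventually (gt_mem_nhds hθ)
  have e2 : ∀ᶠ b in 𝓝 a, ∀ r ∈ range n,
      (4 : ℝ) ^ r * ‖(b * b - b) ^ r‖ < (4 : ℝ) ^ r * ‖(a * a - a) ^ r‖ + 1 :=
    (eventually_all_finset _).2 fun r _ =>
      (hc r).continuousAt.eventually (gt_mem_nhds (lt_add_one _))
  refine ⟨C, θ, hθ0.le, hθ1, (e1.and e2).mono fun b hb m => ?_⟩
  induction m using Nat.strong_induction_on with
  | _ m ih =>
    rcases lt_or_ge m n with hm | hm
    · have h1 : ((4 : ℝ) ^ m * ‖(a * a - a) ^ m‖ + 1) / θ ^ m ≤ C :=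
        single_le_sum (f := fun r => ((4 : ℝ) ^ r * ‖(a * a - a) ^ r‖ + 1) / θ ^ r)
          (fun r _ => by positivity) (mem_range.2 hm)
      rw [div_le_iff₀ (by positivity)] at h1
      exact (hb.2 m (mem_range.2 hm)).le.trans h1
    · obtain ⟨k, rfl⟩ := Nat.exists_eq_add_of_le hm
      have h1 := ih k (by omega)
      have h2 : (0 : ℝ) ≤ 4 ^ k * ‖(b * b - b) ^ k‖ := by positivity
      calc (4 : ℝ) ^ (n + k) * ‖(b * b - b) ^ (n + k)‖
          ≤ (4 : ℝ) ^ (n + k) * (‖(b * b - b) ^ n‖ * ‖(b * b - b) ^ k‖) := by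
            rw [pow_add (b * b - b)]; gcongr; exact norm_mul_le _ _
        _ = (4 ^ n * ‖(b * b - b) ^ n‖) * (4 ^ k * ‖(b * b - b) ^ k‖) := by ring
        _ ≤ θ ^ n * (C * θ ^ k) := mul_le_mul hb.1.le h1 h2 (by positivity)
        _ = C * θ ^ (n + k) := by ring

omit [NormedAlgebra ℝ B] in
theorem isOpen_good : IsOpen {a : B | Good a} := by
  refine isOpen_iff_mem_nhds.2 fun a ha => ?_
  obtain ⟨C, θ, h0, h1, h⟩ := Good.exists_majorant ha
  exact h.mono fun b hb => Summable.of_nonneg_of_le (fun _ => by positivity) hb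
    ((summable_geometric_of_lt_one h0 h1).mul_left C)

omit [NormedAlgebra ℝ B] in
/-- A single power of norm below `4 ^ (-n)` suffices. -/
theorem good_of_pow_lt {a : B} {n : ℕ} (hn0 : 0 < n)
    (hn : (4 : ℝ) ^ n * ‖(a * a - a) ^ n‖ < 1) : Good a := by
  obtain ⟨θ, hθ0, hθ1, hθ⟩ : ∃ θ : ℝ, 0 < θ ∧ θ < 1 ∧ (4 : ℝ) ^ n * ‖(a * a - a) ^ n‖ < θ ^ n := by
    have h1 : ∀ᶠ θ : ℝ in 𝓝 1, (4 : ℝ) ^ n * ‖(a * a - a) ^ n‖ < θ ^ n :=
      ((continuous_pow n).tendsto' 1 1 (one_pow n)).eventually (lt_mem_nhds hn)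
    have h2 : ∀ᶠ θ : ℝ in 𝓝[<] 1, 0 < θ ∧ θ < 1 ∧ (4 : ℝ) ^ n * ‖(a * a - a) ^ n‖ < θ ^ n :=
      Filter.Eventually.and (nhdsWithin_le_nhds (lt_mem_nhds zero_lt_one))
        (Filter.Eventually.and self_mem_nhdsWithin (nhdsWithin_le_nhds h1))
    exact h2.exists
  set C : ℝ := ∑ r ∈ range n, ((4 : ℝ) ^ r * ‖(a * a - a) ^ r‖) / θ ^ r with hC
  refine Summable.of_nonneg_of_le (fun _ => by positivity) (fun m => ?_)
    ((summable_geometric_of_lt_one hθ0.le hθ1).mul_left C)
  induction m using Nat.strong_induction_on with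
  | _ m ih =>
    rcases lt_or_ge m n with hm | hm
    · have h1 : ((4 : ℝ) ^ m * ‖(a * a - a) ^ m‖) / θ ^ m ≤ C :=
        single_le_sum (f := fun r => ((4 : ℝ) ^ r * ‖(a * a - a) ^ r‖) / θ ^ r)
          (fun r _ => by positivity) (mem_range.2 hm)
      rwa [div_le_iff₀ (by positivity)] at h1
    · obtain ⟨k, rfl⟩ := Nat.exists_eq_add_of_le hm
      have h1 := ih k (by omega)
      have h2 : (0 : ℝ) ≤ 4 ^ k * ‖(a * a - a) ^ k‖ := by positivity
      calc (4 : ℝ) ^ (n + k) * ‖(a * a - a) ^ (n + k)‖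
          ≤ (4 : ℝ) ^ (n + k) * (‖(a * a - a) ^ n‖ * ‖(a * a - a) ^ k‖) := by
            rw [pow_add (a * a - a)]; gcongr; exact norm_mul_le _ _
        _ = (4 ^ n * ‖(a * a - a) ^ n‖) * (4 ^ k * ‖(a * a - a) ^ k‖) := by ring
        _ ≤ θ ^ n * (C * θ ^ k) := mul_le_mul hθ.le h1 h2 (by positivity)
        _ = C * θ ^ (n + k) := by ring

section Complete
variable [CompleteSpace B]

theorem Good.hasSum_ser {a : B} (h : Good a) : HasSum (fun m => term a (m + 1)) (ser a) :=
  h.summable_norm_succ.of_norm.hasSum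

theorem Good.tsum_term {a : B} (h : Good a) : ∑' m, term a m = 1 + ser a := by
  rw [h.summable_norm.of_norm.tsum_eq_zero_add]
  simp [term, ser, cf_zero]

theorem Good.sq_ser {a : B} (h : Good a) :
    (1 + (4 : ℝ) • (a * a - a)) * ((1 + ser a) * (1 + ser a)) = 1 := by
  set x : B := -((4 : ℝ) • (a * a - a)) with hx
  have hxp : ∀ n : ℕ, x ^ n = ((-1) ^ n * 4 ^ n : ℝ) • (a * a - a) ^ n := fun n => by
    rw [hx, ← neg_smul, smul_pow, ← mul_pow]; norm_num
  have hsum : Summable fun n : ℕ => x ^ n := by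
    refine Summable.of_norm (h.congr fun n => ?_)
    rw [hxp, norm_smul]; simp
  have h1 : (1 + ser a) * (1 + ser a) = ∑' n : ℕ, x ^ n := by
    rw [← h.tsum_term,
      tsum_mul_tsum_eq_tsum_sum_antidiagonal_of_summable_norm h.summable_norm h.summable_norm]
    refine tsum_congr fun n => ?_
    rw [hxp, ← cf_conv, sum_mul, sum_smul]
    refine sum_congr rfl fun ij hij => ?_
    rw [term, term, smul_mul_smul_comm, ← pow_add, ← mem_antidiagonal.1 hij]
    congr 1; ring
  rw [h1, show (1 + (4 : ℝ) • (a * a - a)) = 1 - x by rw [hx, sub_neg_eq_add]]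
  exact hsum.one_sub_mul_tsum_pow

/-- `kap a` is idempotent. -/
theorem kap_idem {a : B} (h : Good a) : kap a * kap a = kap a := by
  have h1 := h.sq_ser
  set s := ser a with hs
  have hc : a * s = s * a := (commute_ser (Commute.refl a)).eq
  set c : B := a - (1 / 2 : ℝ) • (1 : B) with hcdef
  have hk : kap a = (1 / 2 : ℝ) • (1 : B) + c * (1 + s) := by
    rw [kap, ← hs, hcdef, mul_add, sub_mul, sub_mul, smul_mul_assoc, smul_mul_assoc]
    simp only [mul_one, one_mul]; abel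
  have hcs : (1 + s) * c = c * (1 + s) := by
    rw [hcdef]
    simp only [mul_sub, sub_mul, add_mul, mul_add, mul_smul_comm, smul_mul_assoc, one_mul, mul_one,
      hc, smul_add]
    abel
  have hcc : c * c = (1 / 4 : ℝ) • (1 + (4 : ℝ) • (a * a - a)) := by
    rw [hcdef]
    simp only [mul_sub, sub_mul, mul_smul_comm, smul_mul_assoc, one_mul, mul_one]
    module
  have h2 : c * (1 + s) * (c * (1 + s)) = (1 / 4 : ℝ) • (1 : B) := by
    calc c * (1 + s) * (c * (1 + s)) = c * ((1 + s) * c) * (1 + s) := by simp only [mul_assoc]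
      _ = c * c * ((1 + s) * (1 + s)) := by rw [hcs]; simp only [mul_assoc]
      _ = _ := by rw [hcc, smul_mul_assoc, h1]
  rw [hk]
  generalize c * (1 + s) = z at h2 ⊢
  rw [add_mul, mul_add, mul_add, h2]
  simp only [mul_smul_comm, smul_mul_assoc, one_mul, mul_one]
  module

theorem isIdempotentElem_kap {a : B} (h : Good a) : IsIdempotentElem (kap a) := kap_idem h

/-- Naturality for a continuous additive map that is multiplicative on a closed subspace stable
under left multiplication by `a`. -/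
theorem map_kap_on {F : Type*} [FunLike F B B'] [AddMonoidHomClass F B B'] (f : F)
    (hf : Continuous f) {a : B} (h : Good a) (S : Submodule ℝ B) (hS : IsClosed (S : Set B))
    (haS : a ∈ S) (ha : ∀ x ∈ S, a * x ∈ S) (hm : ∀ x ∈ S, f (a * x) = f a * f x) :
    f (kap a) = kap (f a) := by
  have hq : a * a - a ∈ S := S.sub_mem (ha _ haS) haS
  have hp : ∀ m : ℕ, f ((a * a - a) ^ (m + 1)) = (f a * f a - f a) ^ (m + 1) := fun m => by
    induction m with
    | zero => simp [hm _ haS]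
    | succ m ih =>
      have h1 := pow_mem S hq ha m
      rw [pow_succ' _ (m + 1), defect_mul, map_sub, hm _ (ha _ h1), hm _ h1, ih, ← defect_mul,
        ← pow_succ']
  have hs : f (ser a) = ser (f a) := by
    have h1 := (h.hasSum_ser.map f hf).tsum_eq
    rw [← h1, ser]
    refine tsum_congr fun m => ?_
    simp only [Function.comp, term]
    rw [map_real_smul f hf, hp]
  rw [kap, kap, map_add, map_sub, hm _ (ser_mem S hS hq ha), map_real_smul f hf, hs]

/-- Naturality for continuous ring homomorphisms, unital or not. -/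
theorem map_kap {F : Type*} [FunLike F B B'] [NonUnitalRingHomClass F B B'] (f : F)
    (hf : Continuous f) {a : B} (h : Good a) : f (kap a) = kap (f a) :=
  map_kap_on f hf h ⊤ (by simp) trivial (fun _ _ => trivial) fun x _ => map_mul f a x

theorem continuousAt_ser {a : B} (h : Good a) : ContinuousAt ser a := by
  obtain ⟨C, θ, h0, h1, h2⟩ := h.exists_majorant
  have hu : Summable fun m : ℕ => C * θ ^ (m + 1) :=
    (summable_nat_add_iff (f := fun m : ℕ => C * θ ^ m) 1).2
      ((summable_geometric_of_lt_one h0 h1).mul_left C)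
  have h3 : ContinuousOn (fun b : B => ∑' m, term b (m + 1))
      {b : B | ∀ m, (4 : ℝ) ^ m * ‖(b * b - b) ^ m‖ ≤ C * θ ^ m} := by
    refine continuousOn_tsum (fun m => ?_) hu fun m b hb => (norm_term_le b _).trans (hb _)
    unfold term; fun_prop
  exact h3.continuousAt h2

theorem continuousAt_kap {a : B} (h : Good a) : ContinuousAt kap a := by
  have := continuousAt_ser h
  unfold kap
  fun_prop

theorem continuousOn_kap : ContinuousOn kap {a : B | Good a} :=
  fun _ ha => (continuousAt_kap ha).continuousWithinAt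

theorem continuous_kap_comp {X : Type*} [TopologicalSpace X] {a : X → B} (ha : Continuous a)
    (h : ∀ x, Good (a x)) : Continuous fun x => kap (a x) :=
  continuous_iff_continuousAt.2 fun x => (continuousAt_kap (h x)).comp ha.continuousAt

end Complete

omit [NormedAlgebra ℝ B] [NormedAlgebra ℝ B'] in
/-- Goodness passes along continuous ring homomorphisms with a norm bound. -/
theorem Good.map {F : Type*} [FunLike F B B'] [NonUnitalRingHomClass F B B'] (f : F) {C : ℝ}
    (hf : ∀ x, ‖f x‖ ≤ C * ‖x‖) {a : B} (h : Good a) : Good (f a) := by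
  have hp : ∀ m : ℕ, f ((a * a - a) ^ (m + 1)) = (f a * f a - f a) ^ (m + 1) := fun m => by
    induction m with
    | zero => simp
    | succ m ih => rw [pow_succ' _ (m + 1), map_mul, ih, map_sub, map_mul, ← pow_succ']
  refine good_of_le (((summable_nat_add_iff 1).2 h).mul_left C) fun m => ?_
  rw [← hp]
  calc (4 : ℝ) ^ (m + 1) * ‖f ((a * a - a) ^ (m + 1))‖
      ≤ 4 ^ (m + 1) * (C * ‖(a * a - a) ^ (m + 1)‖) := by gcongr; exact hf _
    _ = _ := by ring

/-! ### Close idempotents -/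

section Close
variable {R : Type*} [Ring R]

/-- The intertwiner of two idempotents. -/
def cu (e f : R) : R := 1 + (e + e - 1) * (f - e)

theorem cu_sub_one (e f : R) : cu e f - 1 = (e + e - 1) * (f - e) := by
  rw [cu, add_sub_cancel_left]

theorem mul_cu {e : R} (he : e * e = e) (f : R) : e * cu e f = e * f := by
  have : e * (e + e - 1) = e := by rw [mul_sub, mul_add, he]; simp
  rw [cu, mul_add, ← mul_assoc, this, mul_sub, he]; simp

theorem cu_mul {e f : R} (he : e * e = e) (hf : f * f = f) : cu e f * f = e * f := by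
  have : (e + e - 1) * e = e := by rw [sub_mul, add_mul, he]; simp
  rw [cu, add_mul, mul_assoc, sub_mul f, hf, mul_sub, ← mul_assoc, this, sub_mul, add_mul,
    one_mul]
  abel

theorem cu_intertwine {e f : R} (he : e * e = e) (hf : f * f = f) : e * cu e f = cu e f * f := by
  rw [mul_cu he, cu_mul he hf]

/-- An intertwining unit gives the algebraic equivalence `e = x y`, `f = y x`. -/
theorem equiv_of_unit {e f : R} (he : e * e = e) (u : Rˣ) (h : e * u = u * f) :
    (e * u) * (↑u⁻¹ * e) = e ∧ (↑u⁻¹ * e) * (e * u) = f := by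
  constructor
  · rw [mul_assoc, Units.mul_inv_cancel_left, he]
  · rw [mul_assoc, ← mul_assoc e, he, h, Units.inv_mul_cancel_left]

theorem inv_sub_one (u : Rˣ) : (↑u⁻¹ : R) - 1 = -(↑u⁻¹ * ((u : R) - 1)) := by
  rw [mul_sub, Units.inv_mul]; simp

end Close

section Banach
variable [CompleteSpace B]

omit [NormedAlgebra ℝ B] in
theorem exists_unit_of_close {x : B} (h : ‖x - 1‖ < 1) :
    ∃ u : Bˣ, (u : B) = x ∧ (↑u⁻¹ : B) = ∑' n : ℕ, (1 - x) ^ n :=
  ⟨Units.oneSub (1 - x) (by rwa [norm_sub_rev]), by simp, rfl⟩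

/-- The inverse of `1 + t` with `t` small stays in `1 + S`. -/
theorem exists_unit_mem {x : B} (h : ‖x - 1‖ < 1) (S : Submodule ℝ B) (hS : IsClosed (S : Set B))
    (hx : x - 1 ∈ S) (hm : ∀ y ∈ S, (x - 1) * y ∈ S) :
    ∃ u : Bˣ, (u : B) = x ∧ (↑u⁻¹ : B) - 1 ∈ S := by
  obtain ⟨u, hu, hi⟩ := exists_unit_of_close h
  refine ⟨u, hu, ?_⟩
  have hs : Summable fun n : ℕ => (1 - x) ^ n :=
    summable_geometric_of_norm_lt_one (by rwa [norm_sub_rev])
  rw [hi, hs.tsum_eq_zero_add, pow_zero, add_sub_cancel_left]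
  refine tsum_mem_closed S hS fun n => ?_
  induction n with
  | zero => simpa using S.neg_mem hx
  | succ n ih =>
    have := S.neg_mem (hm _ ih)
    rwa [← neg_mul, neg_sub, ← pow_succ'] at this

omit [NormedAlgebra ℝ B] in
/-- Close idempotents are similar through `cu e f`. -/
theorem exists_unit_cu {e f : B} (he : e * e = e) (hf : f * f = f)
    (h : ‖(e + e - 1) * (f - e)‖ < 1) : ∃ u : Bˣ, (u : B) = cu e f ∧ e * u = u * f := by
  obtain ⟨u, hu, -⟩ := exists_unit_of_close (x := cu e f) (by rwa [cu_sub_one])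
  exact ⟨u, hu, by rw [hu, cu_intertwine he hf]⟩

omit [NormedAlgebra ℝ B] [CompleteSpace B] in
theorem close_of_norm {e f : B} (h : (2 * ‖e‖ + 1) * ‖f - e‖ < 1) :
    ‖(e + e - 1) * (f - e)‖ < 1 := by
  refine lt_of_le_of_lt ?_ h
  rw [sub_mul, add_mul, one_mul]
  calc ‖e * (f - e) + e * (f - e) - (f - e)‖ ≤ ‖e * (f - e)‖ + ‖e * (f - e)‖ + ‖f - e‖ :=
        (norm_sub_le _ _).trans (by gcongr; exact norm_add_le _ _)
    _ ≤ ‖e‖ * ‖f - e‖ + ‖e‖ * ‖f - e‖ + ‖f - e‖ := by gcongr <;> exact norm_mul_le _ _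
    _ = _ := by ring

omit [NormedAlgebra ℝ B] [CompleteSpace B] in
/-- Induction along a continuous family: a transitive relation that holds for close parameters
holds for all parameters. -/
theorem path_ind {X : Type*} [TopologicalSpace X] [PreconnectedSpace X] {e : X → B}
    (he : Continuous e) (P : X → X → Prop)
    (hclose : ∀ x y, ‖(e x + e x - 1) * (e y - e x)‖ < 1 → P x y)
    (htrans : ∀ x y z, P x y → P y z → P x z) (x y : X) : P x y := by
  refine PreconnectedSpace.induction₂' P (fun x => ?_) ⟨htrans⟩ x y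
  have h1 : ∀ᶠ y in 𝓝 x, ‖(e x + e x - 1) * (e y - e x)‖ < 1 :=
    ContinuousAt.eventually_lt (by fun_prop) continuousAt_const (by simp)
  have h2 : ∀ᶠ y in 𝓝 x, ‖(e y + e y - 1) * (e x - e y)‖ < 1 :=
    ContinuousAt.eventually_lt (by fun_prop) continuousAt_const (by simp)
  exact (h1.and h2).mono fun y hy => ⟨hclose _ _ hy.1, hclose _ _ hy.2⟩

omit [NormedAlgebra ℝ B] in
/-- A continuous family of idempotents, constant modulo a two-sided ideal `I`, consists of
idempotents similar through units of `1 + I`. -/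
theorem path_similar {X : Type*} [TopologicalSpace X] [PreconnectedSpace X] {e : X → B}
    (he : Continuous e) (hi : ∀ x, e x * e x = e x) (I : TwoSidedIdeal B)
    (hI : ∀ x y, e x - e y ∈ I) (x y : X) :
    ∃ u : Bˣ, (u : B) - 1 ∈ I ∧ (↑u⁻¹ : B) - 1 ∈ I ∧ e x * u = u * e y := by
  have key : ∃ u : Bˣ, (u : B) - 1 ∈ I ∧ e x * u = u * e y := by
    refine path_ind he (fun x y => ∃ u : Bˣ, (u : B) - 1 ∈ I ∧ e x * u = u * e y) ?_ ?_ x y
    · intro x y h
      obtain ⟨u, hu, h1⟩ := exists_unit_cu (hi x) (hi y) h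
      exact ⟨u, by rw [hu, cu_sub_one]; exact I.mul_mem_left _ _ (hI y x), h1⟩
    · rintro x y z ⟨u, hu, h1⟩ ⟨v, hv, h2⟩
      refine ⟨u * v, ?_, ?_⟩
      · have : ((u * v : Bˣ) : B) - 1 = ((u : B) - 1) * v + ((v : B) - 1) := by
          rw [Units.val_mul, sub_mul]; simp
        rw [this]
        exact I.add_mem (I.mul_mem_right _ _ hu) hv
      · rw [Units.val_mul, ← mul_assoc, h1, mul_assoc, h2, mul_assoc]
  obtain ⟨u, hu, h⟩ := key
  exact ⟨u, hu, by rw [inv_sub_one]; exact I.neg_mem (I.mul_mem_left _ _ hu), h⟩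

/-- The same inside a closed subspace `S` closed under products and under multiplication by the
idempotents of the family on the left. -/
theorem path_similar_on {X : Type*} [TopologicalSpace X] [PreconnectedSpace X] {e : X → B}
    (he : Continuous e) (hi : ∀ x, e x * e x = e x) (S : Submodule ℝ B)
    (hS : IsClosed (S : Set B)) (hmul : ∀ s ∈ S, ∀ t ∈ S, s * t ∈ S)
    (hl : ∀ x, ∀ s ∈ S, e x * s ∈ S) (hI : ∀ x y, e x - e y ∈ S) (x y : X) :
    ∃ u : Bˣ, (u : B) - 1 ∈ S ∧ (↑u⁻¹ : B) - 1 ∈ S ∧ e x * u = u * e y := by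
  have hmm : ∀ a b : B, a - 1 ∈ S → b - 1 ∈ S → a * b - 1 ∈ S := fun a b ha hb => by
    have : a * b - 1 = (a - 1) * (b - 1) + (a - 1) + (b - 1) := by noncomm_ring
    rw [this]
    exact S.add_mem (S.add_mem (hmul _ ha _ hb) ha) hb
  refine path_ind he
    (fun x y => ∃ u : Bˣ, (u : B) - 1 ∈ S ∧ (↑u⁻¹ : B) - 1 ∈ S ∧ e x * u = u * e y) ?_ ?_ x y
  · intro x y h
    have h1 : cu (e x) (e y) - 1 ∈ S := by
      rw [cu_sub_one, sub_mul, add_mul, one_mul]
      exact S.sub_mem (S.add_mem (hl x _ (hI y x)) (hl x _ (hI y x))) (hI y x)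
    obtain ⟨u, hu, h2⟩ := exists_unit_mem (x := cu (e x) (e y)) (by rwa [cu_sub_one]) S hS h1
      fun s hs => hmul _ h1 _ hs
    exact ⟨u, by rwa [hu], h2, by rw [hu, cu_intertwine (hi x) (hi y)]⟩
  · rintro x y z ⟨u, hu, hu', h1⟩ ⟨v, hv, hv', h2⟩
    refine ⟨u * v, hmm _ _ hu hv, ?_, ?_⟩
    · rw [mul_inv_rev, Units.val_mul]; exact hmm _ _ hv' hu'
    · rw [Units.val_mul, ← mul_assoc, h1, mul_assoc, h2, mul_assoc]

end Banach

end BCK
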