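import Pool.Agent.Lib.BC.LocDefs
import Pool.Agent.Lib.BCH.KApi

/-! Statements for the passage from the vanishing in `D*` to the localization algebra. -/

noncomputable section

open Filter Topology
open scoped NNReal BoundedContinuousFunction

namespace Pool.Agent.Lib.BCL

open Pool.Agent.Lib.BCH

section

variable (Γ : Type) {X Z : Type} [Group Γ] [MetricSpace X] [MulAction Γ Z] (pos : Z → X)

/-- `C*` is an ideal of `D*`. -/
structure Idl : Prop where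
  sub : ∀ K ∈ Cstar Γ pos, K ∈ Dstar Γ pos
  mul : ∀ T ∈ Dstar Γ pos, ∀ K ∈ Cstar Γ pos, T * K ∈ Cstar Γ pos ∧ K * T ∈ Cstar Γ pos

/-- The core theorem: vanishing in `K0 C(Y, D*)`. -/
def Van : Prop :=
  ∀ (Y : Type) [TopologicalSpace Y] [CompactSpace Y] [T2Space Y] (k : ℕ)
    (c : Matrix (Fin k) (Fin k) ℝ) (e : Matrix (Fin k) (Fin k) C(Y, Dstar Γ pos)), e * e = e →
    c * c = c → (∀ i j y, (e i j y : Op Z) - c i j • (1 : Op Z) ∈ Cstar Γ pos) →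
    cls e = cls (c.map fun a => a • (1 : C(Y, Dstar Γ pos)))

/-- An approximate unit of `C*` made of invariant multiplication operators. -/
structure Exh (Q : ℝ≥0 → Op Z) : Prop where
  zero : Q 0 = 0
  lip : ∀ s t, ‖Q s - Q t‖ ≤ dist s t
  norm : ∀ t, ‖Q t‖ ≤ 1 ∧ ‖1 - Q t‖ ≤ 1
  diag : ∀ t, ∃ f : Z → ℝ, (∀ (g : Γ) z, f (g • z) = f z) ∧ ∀ (T : Op Z) a b,
    entry (Q t * T) a b = f a * entry T a b ∧ entry (T * Q t) a b = entry T a b * f b
  mem : ∀ t (T : Op Z), Invariant Γ T → FinProp pos T →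
    Q t * T ∈ Cstar Γ pos ∧ T * Q t ∈ Cstar Γ pos
  app : ∀ K ∈ Cstar Γ pos, Tendsto (fun t => ‖K - Q t * K‖) atTop (𝓝 0) ∧
    Tendsto (fun t => ‖K - K * Q t‖) atTop (𝓝 0)

/-- Elements of `D*` have small propagation modulo `C*`. -/
def Small : Prop :=
  ∀ T ∈ Dstar Γ pos, ∀ r > 0, ∀ δ > 0, ∃ T' K : Op Z, Invariant Γ T' ∧ PropLE pos r T' ∧
    K ∈ Cstar Γ pos ∧ ‖T - T' - K‖ ≤ δ

/-- Products of invariant operators and of operators of bounded propagation. -/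
structure MulP : Prop where
  inv : ∀ S T : Op Z, Invariant Γ S → Invariant Γ T → Invariant Γ (S * T)
  prop : ∀ (r r' : ℝ) (S T : Op Z), PropLE pos r S → PropLE pos r' T → PropLE pos (r + r') (S * T)

end

/-- A proper cocompact isometric action on a proper space, with an ample module. -/
structure Setup (Γ : Type) {X Z : Type} [Group Γ] [MetricSpace X] [MulAction Γ X] [MulAction Γ Z]
    (pos : Z → X) (o : X) : Prop where
  amp : IsAmple Γ pos
  proper : ∀ R : ℝ, {g : Γ | dist o (g • o) ≤ R}.Finite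
  cocpt : ∃ D : ℝ, ∀ x : X, ∃ g : Γ, dist x (g • o) ≤ D

/-- Block AE: the algebraic ending. -/
def St_AE : Prop :=
  ∀ (Γ X Z : Type) [Group Γ] [MetricSpace X] [MulAction Γ Z] (pos : Z → X),
    Idl Γ pos → Van Γ pos →
    ∀ (𝒟 : Subalgebra ℝ (ℝ≥0 →ᵇ Op Z)) (κ : Op Z →L[ℝ] (ℝ≥0 →ᵇ Op Z)),
      (∀ T ∈ Dstar Γ pos, κ T ∈ 𝒟 ∧ κ T 0 = T ∧ ∀ t, κ T t - T ∈ Cstar Γ pos) →
      (∀ f ∈ 𝒟, (∀ t, f t ∈ Cstar Γ pos) → f ∈ Loc Γ pos) →
      ∀ n, Function.Surjective (assembly Γ pos n)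

/-- Block EXH. -/
def St_EXH : Prop :=
  ∀ (Γ X Z : Type) [Group Γ] [MetricSpace X] [ProperSpace X] [MulAction Γ X] [IsIsometricSMul Γ X]
    [MulAction Γ Z] (pos : Z → X) (o : X), Setup Γ pos o → ∃ Q, Exh Γ pos Q

/-- Block SMALL. -/
def St_SMALL : Prop :=
  ∀ (Γ X Z : Type) [Group Γ] [MetricSpace X] [ProperSpace X] [MulAction Γ X] [IsIsometricSMul Γ X]
    [MulAction Γ Z] (pos : Z → X) (o : X), Setup Γ pos o → Idl Γ pos → MulP Γ pos → Small Γ pos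

/-- Block MUL. -/
def St_MUL : Prop :=
  ∀ (Γ X Z : Type) [Group Γ] [MetricSpace X] [MulAction Γ Z] (pos : Z → X), MulP Γ pos

/-- Block IDL. -/
def St_IDL : Prop :=
  ∀ (Γ X Z : Type) [Group Γ] [MetricSpace X] [MulAction Γ Z] (pos : Z → X), Idl Γ pos

end Pool.Agent.Lib.BCL
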