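import Pool.Agent.Lib.BCH.KDefs
import Pool.Agent.Lib.BCH.RoeDefs

/-! The groups `KO n`, the equivariant localization algebra and evaluation at time zero. -/

noncomputable section

open scoped NNReal BoundedContinuousFunction ZeroAtInfty

namespace Pool.Agent.Lib.BCL

open Pool.Agent.Lib.BCH

theorem K0.map_map {R S T : Type} [Ring R] [Ring S] [Ring T] (φ : R →ₙ+* S) (ψ : S →ₙ+* T)
    (χ : R →ₙ+* T) (h : ∀ r, ψ (φ r) = χ r) (x : K0 R) : K0.map ψ (K0.map φ x) = K0.map χ x := by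
  obtain ⟨x, rfl⟩ := QuotientAddGroup.mk_surjective x
  have : ((K0.map ψ).comp (K0.map φ)).comp (QuotientAddGroup.mk' _) =
      (K0.map χ).comp (QuotientAddGroup.mk' _) := by
    refine FreeAbelianGroup.lift_ext _ _ fun e => ?_
    change K0.mk _ = K0.mk _
    congr 2
    exact Matrix.ext fun i j => h _
  exact DFunLike.congr_fun this x

section KO

variable {A B : Type}
  [NonUnitalRing A] [Module ℝ A] [IsScalarTower ℝ A A] [SMulCommClass ℝ A A]
  [NonUnitalRing B] [Module ℝ B] [IsScalarTower ℝ B B] [SMulCommClass ℝ B B]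

/-- The map induced on `K0` of algebras without unit. -/
def K0rMap (φ : A →ₙₐ[ℝ] B) : K0r A →+ K0r B :=
  ((K0.map (unitMap φ : Unitization ℝ A →ₙ+* Unitization ℝ B)).comp (K0r A).subtype).codRestrict
    _ fun x => (K0.map_map _ _ _ (fun r => by
      change (algebraMap ℝ (Unitization ℝ B) r.fst + Unitization.inr (φ r.snd)).fst = r.fst
      simp [Unitization.algebraMap_eq_inl]) x.1).trans x.2

variable [TopologicalSpace A] [IsTopologicalRing A] [ContinuousConstSMul ℝ A]
  [TopologicalSpace B] [IsTopologicalRing B] [ContinuousConstSMul ℝ B]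

/-- The `n`-fold suspension `C₀(ℝⁿ, A)`. -/
abbrev Susp (n : ℕ) (A : Type) [TopologicalSpace A] [Zero A] : Type :=
  C₀(EuclideanSpace ℝ (Fin n), A)

/-- The homomorphism of suspensions induced by a continuous homomorphism. -/
def suspMap (n : ℕ) (φ : A →ₙₐ[ℝ] B) (hφ : Continuous φ) : Susp n A →ₙₐ[ℝ] Susp n B where
  toFun f := ⟨⟨fun y => φ (f y), hφ.comp (map_continuous f)⟩,
    (hφ.tendsto' 0 0 (map_zero φ)).comp (zero_at_infty f)⟩
  map_smul' c f := DFunLike.ext _ _ fun y => map_smul φ c (f y)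
  map_zero' := DFunLike.ext _ _ fun _ => map_zero φ
  map_add' f g := DFunLike.ext _ _ fun y => map_add φ (f y) (g y)
  map_mul' f g := DFunLike.ext _ _ fun y => map_mul φ (f y) (g y)

variable (A) in
/-- Real K-theory: `KO n A = K0 (C₀(ℝⁿ, A))`. -/
abbrev KO (n : ℕ) : Type := K0r (Susp n A)

/-- The map induced on `KO n` by a continuous homomorphism. -/
def KOMap (n : ℕ) (φ : A →ₙₐ[ℝ] B) (hφ : Continuous φ) : KO A n →+ KO B n :=
  K0rMap (suspMap n φ hφ)

end KO

variable (Γ : Type) {X Z : Type} [Group Γ] [MetricSpace X] [MulAction Γ Z]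

/-- `T` has propagation at most `r`. -/
def PropLE (pos : Z → X) (r : ℝ) (T : Op Z) : Prop :=
  ∀ a b : Z, r < dist (pos a) (pos b) → entry T a b = 0

/-- The bounded, uniformly continuous paths in `C*(X)^Γ` whose propagation tends to zero. -/
def LocGen (pos : Z → X) : Set (ℝ≥0 →ᵇ Op Z) :=
  {f | (∀ t, f t ∈ Cstar Γ pos) ∧ UniformContinuous f ∧
    ∀ r > 0, ∃ t₀, ∀ t ≥ t₀, PropLE pos r (f t)}

/-- The closed algebra generated by a subset of a real normed algebra without unit. -/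
def gen {B : Type} [NonUnitalNormedRing B] [NormedSpace ℝ B] [IsScalarTower ℝ B B]
    [SMulCommClass ℝ B B] (s : Set B) : NonUnitalSubalgebra ℝ B :=
  (NonUnitalAlgebra.adjoin ℝ s).topologicalClosure

/-- The localization algebra `C*_L(X)^Γ`. -/
abbrev Loc (pos : Z → X) := gen (LocGen Γ pos)

theorem mem_Cstar {pos : Z → X} {f : ℝ≥0 →ᵇ Op Z} (hf : f ∈ Loc Γ pos) (t : ℝ≥0) :
    f t ∈ Cstar Γ pos := by
  have hc : IsClosed (Cstar Γ pos : Set (Op Z)) := isClosed_closure
  refine closure_minimal (t := (fun f : ℝ≥0 →ᵇ Op Z => f t) ⁻¹' Cstar Γ pos) (fun f hf => ?_)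
    (hc.preimage (continuous_eval_const t)) hf
  induction hf using NonUnitalAlgebra.adjoin_induction with
  | mem x hx => exact hx.1 t
  | add x y _ _ hx hy => exact (Cstar Γ pos).add_mem hx hy
  | zero => exact (Cstar Γ pos).zero_mem
  | mul x y _ _ hx hy => exact (Cstar Γ pos).mul_mem hx hy
  | smul c x _ hx => exact (Cstar Γ pos).smul_mem c hx

/-- Evaluation at time zero, `C*_L(X)^Γ → C*(X)^Γ`. -/
def ev0 (pos : Z → X) : Loc Γ pos →ₙₐ[ℝ] Cstar Γ pos where
  toFun f := ⟨f.1 0, mem_Cstar Γ f.2 0⟩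
  map_smul' _ _ := rfl
  map_zero' := rfl
  map_add' _ _ := rfl
  map_mul' _ _ := rfl

theorem continuous_ev0 (pos : Z → X) : Continuous (ev0 Γ pos) :=
  ((continuous_eval_const (0 : ℝ≥0)).comp continuous_subtype_val).subtype_mk _

/-- The assembly map `KO n (C*_L(X)^Γ) → KO n (C*(X)^Γ)`. -/
def assembly (pos : Z → X) (n : ℕ) : KO (Loc Γ pos) n →+ KO (Cstar Γ pos) n :=
  KOMap n (ev0 Γ pos) (continuous_ev0 Γ pos)

end Pool.Agent.Lib.BCL
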