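import Pool.Agent.Lib.BC.LBlue
import Pool.Agent.Lib.BCH.Roe46

/-! Elements of `D*` have small propagation modulo `C*`. -/

noncomputable section

open Filter Topology Finset
open scoped ZeroAtInfty

namespace Pool.Agent.Lib.BCL

open Pool.Agent.Lib.BCH

namespace SM

theorem hasSum_sq {Z : Type} (ξ : H Z) : HasSum (fun b => ξ b ^ 2) (‖ξ‖ ^ 2) := by
  simpa using lp.hasSum_norm (p := 2) (by norm_num) ξ

/-- Cutting the rows of an operator by functions of bounded multiplicity. -/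
theorem exists_cut {Z Y : Type} (T : Op Z) (c : Z → Y) (f : Y → Z → ℝ) (hf : ∀ y b, |f y b| ≤ 1)
    (N : ℕ) (hN : ∀ b, ∃ t : Finset Y, t.card ≤ N ∧ ∀ a, f (c a) b ≠ 0 → c a ∈ t) :
    ∃ T' : Op Z, ∀ a b, entry T' a b = entry T a b * f (c a) b := by
  classical
  have key : ∀ (ξ : H Z) (s : Finset Z), ∑ a ∈ s, (T (mulOp (f (c a)) 1 (hf _) ξ) a) ^ 2 ≤
      (√N * ‖T‖ * ‖ξ‖) ^ 2 := fun ξ s => by
    have h1 : ∑ y ∈ s.image c, ‖mulOp (f y) 1 (hf y) ξ‖ ^ 2 ≤ N * ‖ξ‖ ^ 2 := by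
      refine hasSum_le (fun b => ?_) (hasSum_sum fun y _ => hasSum_sq (mulOp (f y) 1 (hf y) ξ))
        ((hasSum_sq ξ).mul_left (N : ℝ))
      obtain ⟨t, ht, h⟩ := hN b
      rw [← sum_filter_of_ne (p := fun y => y ∈ t)]
      · refine (sum_le_card_nsmul _ _ (ξ b ^ 2) fun y _ => ?_).trans ?_
        · rw [mulOp_apply, mul_pow, ← sq_abs (f y b)]
          exact mul_le_of_le_one_left (sq_nonneg _) (pow_le_one₀ (abs_nonneg _) (hf y b))
        · rw [nsmul_eq_mul]
          refine mul_le_mul_of_nonneg_right ?_ (sq_nonneg _)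
          exact_mod_cast (card_le_card fun y hy => (mem_filter.1 hy).2).trans ht
      · intro y hy h0
        obtain ⟨a, -, rfl⟩ := mem_image.1 hy
        refine h a fun h1 => h0 ?_
        rw [mulOp_apply, h1]
        simp
    rw [← sum_fiberwise_of_maps_to (t := s.image c) (g := c) fun a ha => mem_image_of_mem c ha]
    refine (sum_le_sum (g := fun y => ‖T‖ ^ 2 * ‖mulOp (f y) 1 (hf y) ξ‖ ^ 2) fun y _ => ?_).trans ?_
    · rw [sum_congr rfl (g := fun a => (T (mulOp (f y) 1 (hf y) ξ) a) ^ 2) fun a ha => by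
        rw [(mem_filter.1 ha).2]]
      refine (sum_le_hasSum _ (fun _ _ => sq_nonneg _) (hasSum_sq _)).trans ?_
      rw [← mul_pow]
      exact pow_le_pow_left₀ (norm_nonneg _) (T.le_opNorm _) 2
    · rw [← mul_sum, mul_pow, mul_pow, Real.sq_sqrt (Nat.cast_nonneg _), mul_comm (N : ℝ), mul_assoc]
      exact mul_le_mul_of_nonneg_left h1 (sq_nonneg _)
  have hm : ∀ ξ : H Z, Memℓp (fun a => T (mulOp (f (c a)) 1 (hf _) ξ) a) 2 := fun ξ =>
    memℓp_gen' (C := (√N * ‖T‖ * ‖ξ‖) ^ 2) fun s => by simpa using key ξ s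
  let L : H Z →ₗ[ℝ] H Z :=
    { toFun := fun ξ => ⟨fun a => T (mulOp (f (c a)) 1 (hf _) ξ) a, hm ξ⟩
      map_add' := fun ξ η => lp.ext (funext fun a => by
        change T (mulOp (f (c a)) 1 (hf _) (ξ + η)) a = _
        rw [map_add, map_add]
        rfl)
      map_smul' := fun r ξ => lp.ext (funext fun a => by
        change T (mulOp (f (c a)) 1 (hf _) (r • ξ)) a = _
        rw [map_smul, map_smul]
        rfl) }
  have hL : ∀ ξ, ‖L ξ‖ ≤ √N * ‖T‖ * ‖ξ‖ := fun ξ =>
    lp.norm_le_of_forall_sum_le (by norm_num) (by positivity) fun s => by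
      change ∑ a ∈ s, ‖T (mulOp (f (c a)) 1 (hf _) ξ) a‖ ^ _ ≤ _
      simpa using key ξ s
  exact ⟨L.mkContinuous _ hL, fun a b => entry_comp_mulOp (f (c a)) 1 (hf _) T a b⟩

/-- Equivariant choice over a free action. -/
theorem exists_equivariant {Γ X Z : Type} [Group Γ] [MulAction Γ X] [MulAction Γ Z]
    (hfree : ∀ (g : Γ) (z : Z), g • z = z → g = 1) (P : Z → X → Prop)
    (hP : ∀ (g : Γ) a y, P a y → P (g • a) (g • y)) (h : ∀ a, ∃ y, P a y) :
    ∃ c : Z → X, (∀ (g : Γ) a, c (g • a) = g • c a) ∧ ∀ a, P a (c a) := by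
  choose c₀ hc₀ using h
  let q : Z → Z := fun a => (Quotient.mk (MulAction.orbitRel Γ Z) a).out
  have hq : ∀ (g : Γ) a, q (g • a) = q a := fun g a =>
    congrArg Quotient.out (Quotient.sound (s := MulAction.orbitRel Γ Z) ⟨g, rfl⟩)
  have h1 : ∀ a, ∃ g : Γ, g • q a = a := fun a =>
    (MulAction.orbitRel Γ Z).symm (Quotient.mk_out (s := MulAction.orbitRel Γ Z) a)
  choose γ hγ using h1
  refine ⟨fun a => γ a • c₀ (q a), fun g a => ?_, fun a => ?_⟩
  · have h2 : ((g * γ a)⁻¹ * γ (g • a)) • q a = q a := by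
      rw [mul_smul, inv_smul_eq_iff, mul_smul, hγ, ← hq g a, hγ]
    have h3 := inv_mul_eq_one.1 (hfree _ _ h2)
    simp only [hq, ← h3, mul_smul]
  · have := hP (γ a) _ _ (hc₀ (q a))
    rwa [hγ] at this

variable {X Z : Type} [MetricSpace X] {p : Z → X}

omit [MetricSpace X] in
open Classical in
theorem ind_le (B : Set X) (z : Z) : |if p z ∈ B then (1 : ℝ) else 0| ≤ 1 := by
  split_ifs <;> simp

/-- A criterion for local compactness. -/
theorem lcR_of_cut {K : Op Z} (hf : FinR p p K) (h : ∀ B : Set X, Bornology.IsBounded B →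
    Cpt ((mulOp _ 1 (ind_le (p := p) B)).comp K)) : LcR p p K := by
  classical
  intro φ
  obtain ⟨r, hr⟩ := hf
  have key : ∀ ε > 0, ∃ B : Set X, Bornology.IsBounded B ∧ ∃ (f : Z → ℝ) (η : ℝ)
      (_ : ∀ z, |f z| ≤ η), 0 ≤ η ∧ η * ‖K‖ ≤ ε ∧ ∀ z, f z = if p z ∈ B then 0 else φ (p z) :=
    fun ε hε => by
      have hη : 0 < ε / (‖K‖ + 1) := by positivity
      obtain ⟨B, hB, h'⟩ := c0_small φ hη
      refine ⟨B, hB, _, ε / (‖K‖ + 1), fun z => ?_, hη.le, ?_, fun _ => rfl⟩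
      · split_ifs with h''
        · simpa using hη.le
        · exact (not_le.1 fun h3 => h'' (h' _ h3)).le
      · rw [div_mul_eq_mul_div, div_le_iff₀ (by positivity)]
        nlinarith
  refine ⟨Cpt.of_approx fun ε hε => ?_, Cpt.of_approx fun ε hε => ?_⟩
  · obtain ⟨B, hB, f, η, hf, h0, h1, h2⟩ := key ε hε
    refine ⟨_, (h _ (hB.cthickening (δ := max r 0))).comp_right
      ((mulOp _ 1 (ind_le (p := p) B)).comp (rep p φ)), ?_⟩
    refine le_trans (le_of_eq (congrArg norm (?_ : _ = K.comp (mulOp f η hf)))) ?_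
    · refine entry_ext fun a b => ?_
      rw [entry_sub, ← ContinuousLinearMap.comp_assoc, entry_comp_rep, entry_comp_rep,
        entry_comp_mulOp, entry_comp_mulOp, entry_mulOp_comp, h2]
      by_cases h3 : p b ∈ B
      · by_cases h4 : r < dist (p a) (p b)
        · simp [hr a b h4]
        · rw [if_pos h3, if_pos h3, if_pos (Metric.mem_cthickening_of_dist_le _ _ _ _ h3
            ((not_lt.1 h4).trans (le_max_left _ _)))]
          simp
      · simp [h3]
    · refine (ContinuousLinearMap.opNorm_comp_le _ _).trans (le_trans ?_ h1)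
      rw [mul_comm]
      exact mul_le_mul_of_nonneg_right (norm_mulOp_le _ _ _ h0 hf) (norm_nonneg _)
  · obtain ⟨B, hB, f, η, hf, h0, h1, h2⟩ := key ε hε
    refine ⟨_, (h _ hB).comp_left (rep p φ), ?_⟩
    refine le_trans (le_of_eq (congrArg norm (?_ : _ = (mulOp f η hf).comp K))) ?_
    · refine entry_ext fun a b => ?_
      rw [entry_sub, entry_rep_comp, entry_rep_comp, entry_mulOp_comp, entry_mulOp_comp, h2]
      split_ifs <;> simp
    · exact (ContinuousLinearMap.opNorm_comp_le _ _).trans (le_trans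
        (mul_le_mul_of_nonneg_right (norm_mulOp_le _ _ _ h0 hf) (norm_nonneg _)) h1)

/-- A bump function of one variable. -/
def bp (ρ t : ℝ) : ℝ := max 0 (min 1 (2 - t / ρ))

theorem abs_bp (ρ t : ℝ) : |bp ρ t| ≤ 1 := by
  rw [abs_of_nonneg (le_max_left _ _)]
  exact max_le zero_le_one (min_le_left _ _)

theorem bp_one {ρ t : ℝ} (hρ : 0 < ρ) (h : t ≤ ρ) : bp ρ t = 1 := by
  have := (div_le_one hρ).2 h
  rw [bp, min_eq_left (by linarith), max_eq_right zero_le_one]

theorem bp_zero {ρ t : ℝ} (hρ : 0 < ρ) (h : 2 * ρ ≤ t) : bp ρ t = 0 := by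
  have := (le_div_iff₀ hρ).2 h
  exact max_eq_left ((min_le_right _ _).trans (by linarith))

/-- A bump function on a proper space. -/
def bump [ProperSpace X] {ρ : ℝ} (hρ : 0 < ρ) (y : X) : C₀(X, ℝ) where
  toFun x := bp ρ (dist x y)
  continuous_toFun := by unfold bp; fun_prop
  zero_at_infty' := tendsto_const_nhds.congr' (mem_of_superset
    (isCompact_closedBall y (2 * ρ)).compl_mem_cocompact fun _ hx =>
      (bp_zero hρ (not_le.1 fun h => hx (Metric.mem_closedBall.2 h)).le).symm)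

end SM

open SM in
theorem stSMALL : St_SMALL := by
  classical
  intro Γ X Z _ _ _ _ _ _ pos o hS _ _ T hT r hr δ hδ
  obtain ⟨T₀, ⟨hi, ⟨R, hR⟩, hp⟩, hT₀⟩ := Metric.mem_closure_iff.1 (mem_DR.1 (mem_Dstar_iff.1 hT)) δ hδ
  obtain ⟨D, hD⟩ := hS.cocpt
  have hρ : 0 < r / 3 := by positivity
  obtain ⟨F, -, hF, hcov⟩ := finite_cover_balls_of_compact (isCompact_closedBall o D) hρ
  let S : Set X := {y | ∃ g : Γ, ∃ x ∈ F, y = g • x}
  have hSi : ∀ (g : Γ), ∀ y ∈ S, g • y ∈ S := by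
    rintro g _ ⟨g', x, hx, rfl⟩
    exact ⟨g * g', x, hx, (mul_smul _ _ _).symm⟩
  have hSf : ∀ s : ℝ, {y ∈ S | dist y o ≤ s}.Finite := fun s => by
    refine (hF.biUnion fun x _ => (hS.proper (s + dist x o)).image fun g => g • x).subset ?_
    rintro _ ⟨⟨g, x, hx, rfl⟩, h⟩
    refine Set.mem_biUnion hx ⟨g, ?_, rfl⟩
    refine (dist_triangle _ (g • x) _).trans (add_le_add ?_ (dist_smul _ _ _).le)
    rwa [dist_comm]
  obtain ⟨c, hc, hc'⟩ := exists_equivariant hS.amp.free (fun a y => y ∈ S ∧ dist (pos a) y ≤ r / 3)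
    (fun g a y h => ⟨hSi g y h.1, by rw [hS.amp.equivariant, dist_smul]; exact h.2⟩) fun a => by
      obtain ⟨g, hg⟩ := hD (pos a)
      have h1 : g⁻¹ • pos a ∈ Metric.closedBall o D := by
        rw [Metric.mem_closedBall, ← dist_smul g, smul_inv_smul]
        exact hg
      obtain ⟨x, hx, h2⟩ := Set.mem_iUnion₂.1 (hcov h1)
      refine ⟨g • x, ⟨g, x, hx, rfl⟩, ?_⟩
      rw [Metric.mem_ball, ← dist_smul g, smul_inv_smul] at h2
      exact h2.le
  obtain ⟨T', hT'⟩ := exists_cut T₀ c (fun y b => bp (r / 3) (dist (pos b) y))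
    (fun _ _ => abs_bp _ _) (hSf (2 * (r / 3) + D)).toFinset.card fun b => by
      obtain ⟨g, hg⟩ := hD (pos b)
      refine ⟨(hSf (2 * (r / 3) + D)).toFinset.image fun y => g • y, card_image_le, fun a ha => ?_⟩
      refine mem_image.2 ⟨g⁻¹ • c a, (Set.Finite.mem_toFinset _).2 ⟨hSi _ _ (hc' a).1, ?_⟩,
        smul_inv_smul _ _⟩
      rw [← dist_smul g, smul_inv_smul]
      refine (dist_triangle _ (pos b) _).trans (add_le_add ?_ hg)
      rw [dist_comm]
      exact (not_le.1 fun h => ha (bp_zero hρ h)).le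
  have hi' : InvR Γ T' := fun g a b => by
    rw [hT', hT', hi, hc, hS.amp.equivariant, dist_smul]
  have hf : FinR pos pos (T₀ - T') := ⟨R, fun a b h => by rw [entry_sub, hT', hR a b h]; simp⟩
  refine ⟨T', T₀ - T', hi', fun a b h => ?_, mem_Cstar_iff.2 (C0_le_CR
    ⟨fun g a b => by rw [entry_sub, entry_sub, hi, hi'], hf, lcR_of_cut hf fun B hB => ?_⟩), ?_⟩
  · rw [hT', bp_zero hρ, mul_zero]
    have h1 := dist_triangle (pos a) (c a) (pos b)
    rw [dist_comm (c a)] at h1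
    linarith [(hc' a).2]
  · obtain ⟨s, hs⟩ := hB.subset_closedBall o
    have h1 : ∀ (y : X) a, |if pos a ∈ B ∧ c a = y then (1 : ℝ) else 0| ≤ 1 := fun y a => by
      split_ifs <;> simp
    convert Cpt.sum (hSf (r / 3 + s)).toFinset _ fun y _ =>
      ((hp (bump hρ y)).neg.comp_left (mulOp _ 1 (h1 y))) using 1
    refine entry_ext fun a b => ?_
    rw [entry_sum, entry_mulOp_comp, entry_sub, hT']
    simp only [entry_mulOp_comp, entry_neg, entry_sub, entry_comp_rep, entry_rep_comp]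
    by_cases h2 : pos a ∈ B
    · rw [sum_eq_single_of_mem (c a)]
      · change _ = _ * -(_ * bp _ _ - bp _ _ * _)
        rw [bp_one hρ (hc' a).2]
        simp [h2]
      · refine (Set.Finite.mem_toFinset _).2 ⟨(hc' a).1, (dist_triangle _ (pos a) _).trans
          (add_le_add ?_ (hs h2))⟩
        rw [dist_comm]
        exact (hc' a).2
      · intro y _ hy
        rw [if_neg fun h => hy h.2.symm, zero_mul]
    · simp [h2]
  · rw [sub_sub, add_sub_cancel, ← dist_eq_norm]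
    exact hT₀.le

end Pool.Agent.Lib.BCL
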